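import Pool.Agent.H73.EV.Chk

set_option autoImplicit false

/-! # The complex on 17 vertices and its strategies (helper73, helper393; computer search) -/

namespace Pool.Agent.H73.EZ

open Pool.Agent.H73.EV (Tr msk bm)
open Pool.Agent.H73.EV.Tr

/-- The facets, as bitmasks: the vertices 0-12 are those of the suspension of the A5-acyclic
2-complex (0-4 points, 5-10 pentagon centres, 11, 12 suspension points), the others are new. -/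
def fct : List ℕ := [
  10275, 10281, 10284, 10290, 10292, 10313, 10321, 10324, 10369, 10380, 10772, 12323, 12329,
  12332, 12338, 12340, 12372, 12417, 12434, 12803, 12805, 12820, 18465, 18476, 18506, 18565,
  18570, 18572, 18577, 18578, 18947, 18949, 18954, 20513, 20530, 20553, 20554, 20561, 20613,
  20618, 20620, 20625, 20626, 21002, 33036, 35075, 35089, 36934, 36948, 37121, 37386, 37400,
  37893, 37894, 37897, 37912, 41033, 41041, 41219, 41220, 41475, 41477, 43011, 43025, 43544,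
  44041, 44050, 44056, 45122, 45136, 45570, 45584, 46098, 49225, 49233, 49416, 49425, 49667,
  49669, 51203, 51217, 51270, 52229, 52230, 52242, 53314, 53328, 53762, 53776, 54290, 66578,
  67654, 67658, 67843, 67846, 67857, 67864, 68116, 68120, 68609, 70661, 70665, 73801, 73809,
  74243, 74245, 74761, 74768, 75844, 75848, 76044, 76292, 76296, 77829, 77833, 77894, 78083,
  78086, 78092, 81993, 82001, 82435, 82437, 82946, 82949, 84036, 84040, 84236, 84484, 84488,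
  86021, 86025, 86284, 86289, 86296, 86552]

/-- Closure under removal of elements. -/
def clos (x : ℕ) : ℕ → ℕ
  | 0 => x
  | v + 1 => clos (x ||| ((x >>> 2 ^ v) &&& msk 17 v)) v

/-- The bitmap of the complex. -/
def big : ℕ := clos (fct.foldr (fun m x => x ||| 2 ^ m) 0) 17

/-- strategy for the link of 13 after removal of the later vertices. -/
def tr13 : Tr :=
  .q 7 (.q 1 (.l 4) (.q 4 (.l 12) (.q 12 (.l 0) (.l 11)))) (.q 8 (.q 0 (.l 1) (.l 2)) (.q 6 (.q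
  1 (.l 2) (.q 3 (.l 0) (.l 4))) (.q 9 (.q 1 (.l 0) (.q 0 (.l 2) (.l 4))) (.q 2 (.q 0 (.l 12)
  (.q 1 (.l 12) (.l 5))) (.q 12 (.q 3 (.l 0) (.l 1)) (.l 11))))))

/-- strategy for the link of 14 after removal of the later vertices. -/
def tr14 : Tr :=
  .q 5 (.q 1 (.l 4) (.q 4 (.l 12) (.q 12 (.l 0) (.l 11)))) (.q 8 (.q 0 (.l 4) (.l 3)) (.q 6 (.q
  2 (.l 1) (.q 4 (.l 0) (.l 3))) (.q 9 (.q 2 (.l 0) (.q 0 (.l 1) (.l 3))) (.q 3 (.q 0 (.l 12)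
  (.q 4 (.l 12) (.l 7))) (.q 12 (.q 2 (.l 0) (.l 4)) (.l 11))))))

/-- strategy for the link of 15 after removal of the later vertices. -/
def tr15 : Tr :=
  .q 6 (.q 3 (.l 0) (.q 0 (.l 4) (.q 4 (.l 12) (.l 1)))) (.q 2 (.q 3 (.l 8) (.q 4 (.l 12) (.q 8
  (.l 13) (.q 13 (.l 0) (.q 9 (.l 0) (.l 10)))))) (.q 8 (.q 3 (.l 14) (.l 0)) (.q 9 (.q 0 (.l
  1) (.q 1 (.l 12) (.l 4))) (.q 3 (.q 1 (.l 12) (.q 14 (.l 0) (.l 10))) (.q 12 (.l 10) (.l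
  11))))))

/-- strategy for the link of 16 after removal of the later vertices. -/
def tr16 : Tr :=
  .q 6 (.q 4 (.l 0) (.q 0 (.l 3) (.q 3 (.l 11) (.l 2)))) (.q 1 (.q 3 (.l 11) (.q 4 (.l 10) (.q
  10 (.l 14) (.q 14 (.l 0) (.q 9 (.l 0) (.l 8)))))) (.q 10 (.q 4 (.l 13) (.l 0)) (.q 9 (.q 0
  (.l 2) (.q 2 (.l 11) (.l 3))) (.q 4 (.q 2 (.l 11) (.q 13 (.l 0) (.l 8))) (.q 11 (.l 8) (.l
  12))))))

/-- strategy for the complex. -/
def trM : Tr :=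
  .q 5 (.q 14 (.q 1 (.l 4) (.q 4 (.l 12) (.q 12 (.l 0) (.l 11)))) (.l 13)) (.q 7 (.q 13 (.q 1
  (.l 4) (.q 4 (.l 12) (.q 12 (.l 0) (.l 11)))) (.l 14)) (.q 11 (.q 10 (.q 16 (.l 0) (.l 15))
  (.q 0 (.q 6 (.l 13) (.q 9 (.l 14) (.q 16 (.l 8) (.l 15)))) (.q 13 (.q 1 (.l 4) (.q 15 (.l 3)
  (.q 4 (.q 3 (.l 9) (.l 2)) (.l 16)))) (.q 9 (.q 2 (.l 16) (.l 3)) (.q 3 (.q 15 (.l 4) (.q 1
  (.l 6) (.l 16))) (.q 6 (.l 2) (.q 4 (.q 2 (.l 16) (.q 16 (.l 8) (.l 15))) (.q 15 (.l 1) (.l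
  2))))))))) (.q 1 (.q 4 (.l 10) (.q 8 (.l 13) (.q 3 (.q 16 (.l 6) (.l 12)) (.q 10 (.q 16 (.l
  14) (.l 15)) (.q 2 (.l 6) (.q 6 (.l 12) (.q 14 (.l 9) (.l 13)))))))) (.q 10 (.q 2 (.l 0) (.q
  16 (.q 4 (.l 13) (.l 0)) (.l 15))) (.q 12 (.q 6 (.q 3 (.l 0) (.q 16 (.l 2) (.l 4))) (.q 9 (.q
  0 (.l 2) (.l 4)) (.q 13 (.q 15 (.l 4) (.q 4 (.l 2) (.l 16))) (.q 2 (.q 4 (.l 15) (.q 15 (.l
  0) (.l 14))) (.q 15 (.q 8 (.l 0) (.q 0 (.l 3) (.l 4))) (.l 14)))))) (.q 4 (.q 8 (.l 14) (.q 3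
  (.l 9) (.q 2 (.q 15 (.l 6) (.q 6 (.l 13) (.l 9))) (.q 9 (.q 13 (.l 15) (.l 14)) (.l 0)))))
  (.q 15 (.q 6 (.q 2 (.l 14) (.l 0)) (.q 3 (.q 2 (.l 8) (.q 8 (.l 14) (.q 9 (.l 13) (.l 0))))
  (.q 14 (.l 0) (.l 13)))) (.l 16))))))))

end Pool.Agent.H73.EZ
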