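import Pool.Agent.H73.EZ.Mh
import Pool.Agent.H73.EX.Glu0

set_option autoImplicit false

/-! # Gluing 30 copies of the complex on 17 vertices along its 13 old vertices (helper73) -/

namespace Pool.Agent.H73.EZ

open Set Pool.Agent.H73.EV Pool.Agent.H73.EX

/-- The vertices: 13 old vertices and 4 new ones for each of the 30 copies. -/
abbrev VV : Type := Fin 13 ⊕ (Fin 30 × Fin 4)

/-- The embedding of the copy `g`. -/
def emb (g : Fin 30) (i : Fin 17) : VV :=
  if h : i.val < 13 then Sum.inl (pm g ⟨i.val, h⟩) else Sum.inr (g, ⟨i.val - 13, by omega⟩)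

theorem emb_old (g : Fin 30) (i : Fin 17) (h : i.val < 13) :
    emb g i = Sum.inl (pm g ⟨i.val, h⟩) := dif_pos h

theorem emb_new (g : Fin 30) (i : Fin 17) (h : ¬ i.val < 13) :
    emb g i = Sum.inr (g, ⟨i.val - 13, by omega⟩) := dif_neg h

theorem emb_inj (g : Fin 30) : Function.Injective (emb g) := by
  intro i j h
  by_cases hi : i.val < 13 <;> by_cases hj : j.val < 13
  · rw [emb_old g i hi, emb_old g j hj] at h
    have h2 := congrArg Fin.val (pm_inj g (Sum.inl_injective h))
    exact Fin.ext h2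
  · rw [emb_old g i hi, emb_new g j hj] at h
    exact absurd h (by simp)
  · rw [emb_new g i hi, emb_old g j hj] at h
    exact absurd h (by simp)
  · rw [emb_new g i hi, emb_new g j hj] at h
    have h1 := congrArg (fun p => p.2.val) (Sum.inr_injective h)
    simp only at h1
    exact Fin.ext (by omega)

theorem emb_inr {g i : Fin 30} {j : Fin 4} {w : Fin 17} (h : emb g w = Sum.inr (i, j)) :
    i = g ∧ w.val = 13 + j.val := by
  by_cases hw : w.val < 13
  · rw [emb_old g w hw] at h
    exact absurd h (by simp)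
  · rw [emb_new g w hw] at h
    have h1 := Sum.inr_injective h
    have h2 := congrArg Prod.fst h1
    have h3 := congrArg (fun p => p.2.val) h1
    simp only at h2 h3
    exact ⟨h2.symm, by omega⟩

theorem emb_z (g : Fin 30) (j : Fin 4) (h : 13 + j.val < 17) :
    emb g ⟨13 + j.val, h⟩ = Sum.inr (g, j) := by
  rw [emb_new g _ (by simp)]
  congr 2
  exact Fin.ext (by simp)

/-- The glued complex. -/
def SS (X : Set VV) : Prop := ∃ g, (∀ i j, Sum.inr (i, j) ∈ X → i = g) ∧ MM (emb g ⁻¹' X)

/-- Types. -/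
def tV : VV → ℕ
  | Sum.inl x => t0 x
  | Sum.inr p => 3 + tz p.2

theorem SS_down (A B : Set VV) (hAB : A ⊆ B) (h : SS B) : SS A := by
  obtain ⟨g, h1, h2⟩ := h
  exact ⟨g, fun i j hij => h1 i j (hAB hij), MM_down _ _ (Set.preimage_mono hAB) h2⟩

theorem SS_empty : SS ∅ := ⟨0, fun _ _ h => absurd h (Set.notMem_empty _), by
  rw [Set.preimage_empty]; exact MM_empty⟩

theorem SS_two {g g' : Fin 30} {j j' : Fin 4} (hg : g ≠ g') (X : Set VV)
    (h1 : Sum.inr (g, j) ∈ X) (h2 : Sum.inr (g', j') ∈ X) : ¬ SS X := by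
  rintro ⟨g0, h, _⟩
  exact hg ((h _ _ h1).trans (h _ _ h2).symm)

theorem pre_old (g : Fin 30) (X : Set VV) (h : ∀ j, Sum.inr (g, j) ∉ X) :
    emb g ⁻¹' X = old (pm g ⁻¹' (Sum.inl ⁻¹' X)) := by
  ext i
  constructor
  · intro hi
    have hi' : emb g i ∈ X := hi
    by_cases hi13 : i.val < 13
    · rw [emb_old g i hi13] at hi'
      exact ⟨hi13, hi'⟩
    · rw [emb_new g i hi13] at hi'
      exact absurd hi' (h _)
  · rintro ⟨h1, h2⟩
    show emb g i ∈ X
    rw [emb_old g i h1]
    exact h2

theorem t0_lt (x : Fin 13) : t0 x < 3 := by unfold t0; split_ifs <;> norm_num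

theorem SS_fib (x : Fin 13) : ¬ SS {v | tV v = tV (Sum.inl x)} := by
  rintro ⟨g, _, h⟩
  rw [pre_old g _ (by
    intro j hj
    have h1 : 3 + tz j = t0 x := hj
    have := t0_lt x
    omega), MM_pm g] at h
  exact MM_fib x h

theorem SS_iff {g : Fin 30} {j : Fin 4} {Y : Set VV} (h : Sum.inr (g, j) ∈ Y) :
    SS Y ↔ (∀ i j', Sum.inr (i, j') ∈ Y → i = g) ∧ MM (emb g ⁻¹' Y) := by
  constructor
  · rintro ⟨g0, h1, h2⟩
    have := h1 g j h
    subst this
    exact ⟨h1, h2⟩
  · exact fun h => ⟨g, h⟩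

theorem SS_iff0 {Y : Set VV} (h : ∀ g j, g ≠ 0 → Sum.inr (g, j) ∉ Y) :
    SS Y ↔ MM (emb 0 ⁻¹' Y) := by
  constructor
  · rintro ⟨g, h1, h2⟩
    by_cases hg : g = 0
    · rw [← hg]; exact h2
    · have h3 : ∀ i j, Sum.inr (i, j) ∉ Y := by
        intro i j hij
        have := h1 i j hij
        exact h g j hg (this ▸ hij)
      rw [pre_old g Y (h3 g), MM_pm g] at h2
      rw [pre_old 0 Y (h3 0), MM_pm 0]
      exact h2
  · intro h1
    refine ⟨0, fun i j hij => ?_, h1⟩
    by_contra hi
    exact h i j hi hij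

theorem pre_insert (g : Fin 30) (w : Fin 17) (X : Set VV) :
    emb g ⁻¹' (insert (emb g w) X) = insert w (emb g ⁻¹' X) := by
  ext i
  simp only [mem_preimage, mem_insert_iff]
  constructor
  · rintro (h | h)
    · exact Or.inl (emb_inj g h)
    · exact Or.inr h
  · rintro (h | h)
    · exact Or.inl (by rw [h])
    · exact Or.inr h

theorem pre_diff (g : Fin 30) (w : Fin 17) (X : Set VV) :
    emb g ⁻¹' (X \ {emb g w}) = (emb g ⁻¹' X) \ {w} := by
  ext i
  simp only [mem_preimage, mem_sdiff, mem_singleton_iff]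
  constructor
  · rintro ⟨h1, h2⟩
    exact ⟨h1, fun h => h2 (by rw [h])⟩
  · rintro ⟨h1, h2⟩
    exact ⟨h1, fun h => h2 (emb_inj g h)⟩

theorem pi2_ne : ∀ g : Fin 30, piF 2 g ≠ g := by decide +kernel

theorem pi2_pi2 : ∀ g : Fin 30, piF 2 (piF 2 g) = g := by decide +kernel

/-- action on the new vertices. -/
def act2 (c : Fin 3) (p : Fin 30 × Fin 4) : Fin 30 × Fin 4 :=
  (piF c p.1, hz (bF c p.1) p.2)

theorem act_act' : ∀ g : Fin 30, ∀ j : Fin 4, act2 2 (act2 2 (g, j)) = (g, j) := by
  decide +kernel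

theorem act_act (p : Fin 30 × Fin 4) : act2 2 (act2 2 p) = p := act_act' p.1 p.2

/-- Letters which may be exchanged: old vertices of one type, new vertices swapped. -/
def EE : VV → VV → Prop
  | Sum.inl x, Sum.inl y => t0 x = t0 y
  | Sum.inr p, Sum.inr q => q = act2 2 p
  | _, _ => False

theorem EE_act (p : Fin 30 × Fin 4) : EE (Sum.inr (act2 2 p)) (Sum.inr p) :=
  (act_act p).symm

theorem SS_pair (p : Fin 30 × Fin 4) :
    ¬ SS {v | v = Sum.inr p ∨ v = Sum.inr (act2 2 p)} :=
  SS_two (g := p.1) (g' := piF 2 p.1) (j := p.2) (j' := hz (bF 2 p.1) p.2)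
    (fun h => pi2_ne _ h.symm) _ (Or.inl rfl) (Or.inr rfl)

theorem EE_of_type (x : Fin 13) (v : VV) (h : tV v = tV (Sum.inl x)) : EE v (Sum.inl x) := by
  rcases v with y | p
  · exact h
  · have h1 : 3 + tz p.2 = t0 x := h
    have := t0_lt x
    omega

/-- Playing the strategy of a link in the copy `g`. -/
theorem play_link (g : Fin 30) (r : Fin 30 × Fin 4) (hr : r.1 ≠ g)
    {T0 N0 : Set (Fin 17)}
    (h : WM (fun _ _ _ => True) MM T0 N0) : ∀ T N : Set VV, emb g ⁻¹' T = T0 →
    emb g ⁻¹' N = N0 → (∃ j, Sum.inr (g, j) ∈ T) → Sum.inr r ∉ T → Sum.inr r ∉ N →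
    Sum.inr (act2 2 r) ∈ N → W1 EE SS T N := by
  induction h with
  | leaf T0 N0 w hT hN _ h =>
    intro T N hT0 hN0 hj hrT hrN hu
    obtain ⟨j, hj⟩ := hj
    have hwT : emb g w ∉ T := fun h => hT (by rw [← hT0]; exact h)
    have hwN : emb g w ∉ N := fun h => hN (by rw [← hN0]; exact h)
    have hne : Sum.inr (g, j) ≠ emb g w := fun e => hwT (e ▸ hj)
    have irr : ∀ X : Set VV, T ⊆ X → Disjoint X N →
        (SS (insert (emb g w) X) ↔ SS (X \ {emb g w})) := by
      intro X hTX hXN
      rw [SS_iff (j := j) (show Sum.inr (g, j) ∈ insert (emb g w) X from Or.inr (hTX hj)),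
        SS_iff (j := j) (show Sum.inr (g, j) ∈ X \ {emb g w} from ⟨hTX hj, hne⟩),
        pre_insert, pre_diff]
      have h1 := h (emb g ⁻¹' X) (by rw [← hT0]; exact Set.preimage_mono hTX) (by
        rw [← hN0]; exact Disjoint.preimage _ hXN)
      rw [h1]
      refine and_congr_left fun _ => ?_
      constructor
      · intro h2 i j' hij
        exact h2 i j' (Or.inr hij.1)
      · rintro h2 i j' (hij | hij)
        · exact (emb_inr hij.symm).1
        · by_cases he : Sum.inr (i, j') = emb g w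
          · exact (emb_inr he.symm).1
          · exact h2 i j' ⟨hij, he⟩
    by_cases hw : w.val < 13
    · have hwe := emb_old g w hw
      refine fiber_leaf EE SS SS_down {v | tV v = tV (emb g w)} (emb g w) (Sum.inr r)
        (Sum.inr (act2 2 r)) ?_ ?_ ?_ (EE_act r) _ T N rfl hwT hwN hrT hrN hu irr
      · intro v hv _
        have hv' : tV v = tV (emb g w) := hv
        rw [hwe] at hv' ⊢
        exact EE_of_type _ _ hv'
      · intro h2
        have h3 : tV (Sum.inr r) = tV (emb g w) := h2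
        rw [hwe] at h3
        have h4 : 3 + tz r.2 = t0 (pm g ⟨w.val, hw⟩) := h3
        have := t0_lt (pm g ⟨w.val, hw⟩)
        omega
      · rw [hwe]
        exact SS_fib _
    · have hwe := emb_new g w hw
      refine fiber_leaf EE SS SS_down {v | v = Sum.inr (g, ⟨w.val - 13, by omega⟩) ∨
        v = Sum.inr (act2 2 (g, ⟨w.val - 13, by omega⟩))} (emb g w) (Sum.inr r)
        (Sum.inr (act2 2 r)) ?_ ?_ (SS_pair _) (EE_act r) _ T N rfl hwT hwN hrT hrN hu irr
      · rintro v (hv | hv) hvw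
        · rw [hwe] at hvw
          exact absurd hv hvw
        · rw [hv, hwe]
          exact EE_act _
      · rintro (h2 | h2)
        · exact hr (congrArg Prod.fst (Sum.inr_injective h2))
        · have h3 := Sum.inr_injective h2
          rw [h3, act_act, ← hwe] at hu
          exact hwN hu
  | query T0 N0 v hT hN _ _ ih1 ih2 =>
    intro T N hT0 hN0 hj hrT hrN hu
    have hvT : emb g v ∉ T := fun h => hT (by rw [← hT0]; exact h)
    have hvN : emb g v ∉ N := fun h => hN (by rw [← hN0]; exact h)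
    have hr0 : Sum.inr r ≠ emb g v := fun e => hr (emb_inr (i := r.1) (j := r.2) e.symm).1
    refine W1.query T N (emb g v) hvT hvN ?_ ?_
    · refine ih1 _ _ (by rw [pre_insert, hT0]) hN0 ?_ ?_ hrN hu
      · obtain ⟨j, hj⟩ := hj
        exact ⟨j, Or.inr hj⟩
      · rintro (h | h)
        · exact hr0 h
        · exact hrT h
    · refine ih2 _ _ hT0 (by rw [pre_insert, hN0]) hj hrT ?_ (Or.inr hu)
      rintro (h | h)
      · exact hr0 h
      · exact hrN h

/-- Playing the strategy of the complex in the copy `0` when the other copies are absent. -/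
theorem play_final {T0 N0 : Set (Fin 17)} (h : WM Qf MM T0 N0) : ∀ T N : Set VV,
    emb 0 ⁻¹' T = T0 → emb 0 ⁻¹' N = N0 → (∀ g j, g ≠ 0 → Sum.inr (g, j) ∈ N) →
    W1 EE SS T N := by
  induction h with
  | leaf T0 N0 w hT hN hQ h =>
    intro T N hT0 hN0 hall
    have hwT : emb 0 w ∉ T := fun h => hT (by rw [← hT0]; exact h)
    have hwN : emb 0 w ∉ N := fun h => hN (by rw [← hN0]; exact h)
    have irr : ∀ X : Set VV, T ⊆ X → Disjoint X N →
        (SS (insert (emb 0 w) X) ↔ SS (X \ {emb 0 w})) := by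
      intro X hTX hXN
      have hX : ∀ g j, g ≠ 0 → Sum.inr (g, j) ∉ X := fun g j hg hX =>
        Set.disjoint_left.1 hXN hX (hall g j hg)
      rw [SS_iff0 (Y := insert (emb 0 w) X) (by
          rintro g j hg0 (hij | hij)
          · exact hg0 (emb_inr hij.symm).1
          · exact hX g j hg0 hij),
        SS_iff0 (Y := X \ {emb 0 w}) (fun g j hg0 hij => hX g j hg0 hij.1), pre_insert, pre_diff]
      exact h (emb 0 ⁻¹' X) (by rw [← hT0]; exact Set.preimage_mono hTX) (by
        rw [← hN0]; exact Disjoint.preimage _ hXN)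
    by_cases hw : w.val < 13
    · have hwe := emb_old 0 w hw
      rcases hQ with h1 | ⟨u, hu, hu13, hut⟩ | ⟨z, hz, hzT, hzN⟩
      · omega
      · refine W1.leaf T N (emb 0 w) hwT hwN (emb 0 u) (by rw [← hN0] at hu; exact hu) ?_ irr
        rw [hwe, emb_old 0 u hu13, pm_zero, pm_zero]
        exact hut
      · have hze := emb_new 0 z (by omega)
        refine fiber_leaf EE SS SS_down {v | tV v = tV (emb 0 w)} (emb 0 w) (emb 0 z)
          (Sum.inr (act2 2 (0, ⟨z.val - 13, by omega⟩))) ?_ ?_ ?_ (by rw [hze]; exact EE_act _)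
          _ T N rfl hwT hwN (fun h => hzT (by rw [← hT0]; exact h))
          (fun h => hzN (by rw [← hN0]; exact h)) (hall _ _ (pi2_ne 0)) irr
        · intro v hv _
          have hv' : tV v = tV (emb 0 w) := hv
          rw [hwe] at hv' ⊢
          exact EE_of_type _ _ hv'
        · intro h2
          have h3 : tV (emb 0 z) = tV (emb 0 w) := h2
          rw [hwe, hze] at h3
          have h4 : 3 + tz _ = t0 (pm 0 ⟨w.val, hw⟩) := h3
          have := t0_lt (pm 0 ⟨w.val, hw⟩)
          omega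
        · rw [hwe]
          exact SS_fib _
    · have hwe := emb_new 0 w hw
      refine W1.leaf T N (emb 0 w) hwT hwN (Sum.inr (act2 2 (0, ⟨w.val - 13, by omega⟩)))
        (hall _ _ (pi2_ne 0)) ?_ irr
      rw [hwe]
      exact EE_act _
  | query T0 N0 v hT hN _ _ ih1 ih2 =>
    intro T N hT0 hN0 hall
    have hvT : emb 0 v ∉ T := fun h => hT (by rw [← hT0]; exact h)
    have hvN : emb 0 v ∉ N := fun h => hN (by rw [← hN0]; exact h)
    refine W1.query T N (emb 0 v) hvT hvN ?_ ?_
    · exact ih1 _ _ (by rw [pre_insert, hT0]) hN0 hall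
    · exact ih2 _ _ hT0 (by rw [pre_insert, hN0]) (fun g j hg => Or.inr (hall g j hg))

/-- The branch in which a new vertex of a copy `g` is present. -/
theorem branch (g : Fin 30) (j : Fin 4) (N : Set VV)
    (hN : emb g ⁻¹' N = {i : Fin 17 | 13 + j.val < i.val}) (r : Fin 30 × Fin 4)
    (hr : r.1 ≠ g) (hrN : Sum.inr r ∉ N) (hu : Sum.inr (act2 2 r) ∈ N) :
    W1 EE SS {Sum.inr (g, j)} N := by
  refine play_link g r hr (wm_z j) _ _ ?_ hN ⟨j, rfl⟩ ?_ hrN hu
  · ext i
    simp only [mem_preimage, mem_singleton_iff]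
    constructor
    · intro h
      exact Fin.ext (emb_inr h).2
    · intro h
      rw [h, emb_z]
  · intro h
    exact hr (congrArg Prod.fst (Sum.inr_injective h))

/-- the reserve. -/
def rr : Fin 30 × Fin 4 := act2 2 (piF 2 0, 3)

theorem rr_fst : rr.1 = 0 := pi2_pi2 0

theorem act_rr : act2 2 rr = (piF 2 0, 3) := act_act _

theorem stage : ∀ (n : ℕ) (D : Set (Fin 30 × Fin 4)),
    ({p | p.1 ≠ 0} \ D).ncard = n → (∀ p ∈ D, p.1 ≠ 0) →
    (∀ g j, (g, j) ∈ D → ∀ g' j', g' ≠ 0 → j < j' → (g', j') ∈ D) → (piF 2 0, 3) ∈ D →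
    W1 EE SS ∅ (Sum.inr '' D) := by
  intro n
  induction n with
  | zero =>
    intro D hn hD _ _
    rw [Set.ncard_eq_zero (Set.toFinite _)] at hn
    refine play_final wm_M _ _ (Set.preimage_empty) ?_ ?_
    · rw [Set.eq_empty_iff_forall_notMem]
      rintro i ⟨⟨g, j⟩, hp, he⟩
      exact hD _ hp (emb_inr he.symm).1
    · intro g j hg
      refine ⟨(g, j), ?_, rfl⟩
      by_contra hc
      have : (g, j) ∈ ({p | p.1 ≠ 0} \ D : Set (Fin 30 × Fin 4)) := ⟨hg, hc⟩
      rw [hn] at this
      exact this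
  | succ n ih =>
    intro D hn hD hUC h1
    have hne : ({p | p.1 ≠ 0} \ D).Nonempty := by
      rw [← Set.ncard_pos (Set.toFinite _)]; omega
    obtain ⟨⟨g, j⟩, ⟨hg, hgD⟩, hmax⟩ :=
      Set.exists_max_image ({p | p.1 ≠ 0} \ D) (fun p : Fin 30 × Fin 4 => p.2)
        (Set.toFinite _) hne
    have hup : ∀ g' j', g' ≠ 0 → j < j' → (g', j') ∈ D := by
      intro g' j' hg' hjj
      by_contra hc
      exact absurd (hmax (g', j') ⟨hg', hc⟩) (not_le.2 hjj)
    have hgD' : Sum.inr (g, j) ∉ (Sum.inr '' D : Set VV) := by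
      rintro ⟨p, hp, he⟩
      exact hgD (Sum.inr_injective he ▸ hp)
    refine W1.query _ _ (Sum.inr (g, j)) (Set.notMem_empty _) hgD' ?_ ?_
    · have e : (insert (Sum.inr (g, j)) ∅ : Set VV) = {Sum.inr (g, j)} := by simp
      rw [e]
      refine branch g j _ ?_ rr ?_ ?_ ?_
      · ext i
        simp only [mem_preimage, mem_image, mem_ofPred_eq]
        constructor
        · rintro ⟨⟨g2, j2⟩, hp, he⟩
          obtain ⟨h2, h3⟩ := emb_inr he.symm
          subst h2
          rw [h3]
          by_contra hlt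
          rcases lt_or_eq_of_le (show j2.val ≤ j.val by omega) with h4 | h4
          · exact hgD (hUC _ _ hp _ j hg h4)
          · exact hgD ((Fin.ext h4 : j2 = j) ▸ hp)
        · intro hi
          refine ⟨(g, ⟨i.val - 13, by omega⟩), hup g _ hg ?_, ?_⟩
          · show j.val < i.val - 13
            omega
          · rw [emb_new g i (by omega)]
      · rw [rr_fst]
        exact fun h => hg h.symm
      · rintro ⟨p, hp, he⟩
        have := Sum.inr_injective he
        exact hD p hp (by rw [this]; exact rr_fst)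
      · rw [act_rr]
        exact ⟨_, h1, rfl⟩
    · have e : insert (Sum.inr (g, j)) (Sum.inr '' D : Set VV) = Sum.inr '' (insert (g, j) D) := by
        rw [Set.image_insert_eq]
      rw [e]
      apply ih
      · have e : {p | p.1 ≠ 0} \ (insert (g, j) D) =
            ({p : Fin 30 × Fin 4 | p.1 ≠ 0} \ D) \ {(g, j)} := by
          ext y; simp only [mem_sdiff, mem_insert_iff, mem_singleton_iff]; tauto
        rw [e, Set.ncard_sdiff_singleton_of_mem
          (show (g, j) ∈ {p : Fin 30 × Fin 4 | p.1 ≠ 0} \ D from ⟨hg, hgD⟩), hn]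
        rfl
      · rintro p (hp | hp)
        · rw [hp]; exact hg
        · exact hD p hp
      · rintro g2 j2 (hp | hp) g' j' hg' hjj
        · have h2 := congrArg Prod.snd hp
          simp only at h2
          subst h2
          exact Or.inr (hup g' j' hg' hjj)
        · exact Or.inr (hUC g2 j2 hp g' j' hg' hjj)
      · exact Or.inr h1

/-- the first special vertex. -/
def aa : VV := Sum.inr (piF 2 0, 3)

/-- the second special vertex. -/
def ab : VV := Sum.inr (1, 3)

theorem w1_a : W1 EE SS ∅ {aa} := by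
  have := stage _ {(piF 2 0, 3)} rfl (fun p hp => by
    rw [Set.mem_singleton_iff] at hp
    rw [hp]
    exact pi2_ne 0) (by
    intro g j h g' j' _ hj
    have h2 := congrArg Prod.snd h
    simp only at h2
    subst h2
    have := j'.2
    have h3 : (3 : Fin 4).val < j'.val := hj
    simp at h3
    omega) rfl
  rwa [Set.image_singleton] at this

theorem ne_aux : (1 : Fin 30) ≠ piF 2 0 := by decide +kernel

theorem w1_ab : W1 EE SS {aa} {ab} := by
  refine branch (piF 2 0) 3 _ ?_ (act2 2 (1, 3)) ?_ ?_ ?_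
  · ext i
    simp only [mem_preimage, mem_singleton_iff, mem_ofPred_eq]
    constructor
    · intro h
      exact absurd (emb_inr h).1 ne_aux
    · intro h
      have := i.2
      have h3 : 13 + (3 : Fin 4).val < i.val := h
      simp at h3
      omega
  · show piF 2 1 ≠ piF 2 0
    intro h
    have h2 := congrArg (piF 2) h
    rw [pi2_pi2, pi2_pi2] at h2
    exact absurd h2 (by decide)
  · intro h
    have h2 : piF 2 (1 : Fin 30) = 1 := congrArg Prod.fst (Sum.inr_injective h)
    exact pi2_ne _ h2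
  · rw [act_act]
    rfl

theorem not_ab : ¬ SS {aa, ab} :=
  SS_two (g := piF 2 0) (g' := 1) (j := 3) (j' := 3) (fun h => ne_aux h.symm) _
    (Or.inl rfl) (Or.inr rfl)

end Pool.Agent.H73.EZ
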