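import Mathlib

set_option autoImplicit false

/-! # The group of order 120 acting on the 13 old vertices, by tables (helper73) -/

namespace Pool.Agent.H73.EZ

/-- A digit. -/
def dg (T w i : ℕ) : ℕ := (T >>> (w * i)) % 2 ^ w

/-- table of the generators (the last one generates the stabiliser of a copy). -/
def gT : ℕ :=
  67316930341861451996817864763540435516642234944

@[inherit_doc gT]
def gvT : ℕ :=
  67316930341861451992448730464701926350010794544

/-- table of the coset representatives. -/
def pmT : ℕ :=
  32151266898448078124162119919416569684959876337849339386750945347589270101018588646117140689215864548009318784232830775775937754895412705368042976999421864754743018275914325099691624986593833025034347510502603762136859465230237927416602762594522053311413314032253512803685369998101613816636799872931043119160343631008136487879334507447541202952354804829939621996248524176897446711359839254937804074836378450172428653504948421624117409088386830933381059270722285989016080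

/-- action of the generators on the copies. -/
def piT : ℕ :=
  818218342503688271129280145913001701978462766895168794838408153365610815344361414775539086586588725886606745111345761973260894254112056446993730563898214104699515694736654339020771377537

@[inherit_doc piT]
def pvT : ℕ :=
  818218342503688271129280145913001701978462766895168794838408175186834056261251767814845685165878653109421326738998140087764464619528301761217503565707839005015430906424407338814982471683

/-- twist bits. -/
def bT : ℕ :=
  322924604584447023140922521471560796136984258218355682153063151544174921909086254511022724372944875490902016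

/-- table of the elements of the stabiliser `H` of a copy. -/
def hpT : ℕ :=
  302949593065126658707227262741505665481476777529926993782780432

/-- table of the action of `H` on the new vertices of a copy. -/
def hzT : ℕ :=
  84133064218248

/-- table of parents in a spanning tree of the copies. -/
def paT : ℕ :=
  336570478415994842668415020432214304491027014258966692225875968

/-- the generators as functions. -/
def gF (c : Fin 3) (x : Fin 13) : Fin 13 :=
  ⟨dg gT 4 (13 * c.val + x.val) % 13, Nat.mod_lt _ (by norm_num)⟩

@[inherit_doc gF]
def gvF (c : Fin 3) (x : Fin 13) : Fin 13 :=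
  ⟨dg gvT 4 (13 * c.val + x.val) % 13, Nat.mod_lt _ (by norm_num)⟩

theorem gv_g : ∀ c : Fin 3, ∀ x : Fin 13, gvF c (gF c x) = x := by decide +kernel

theorem g_gv : ∀ c : Fin 3, ∀ x : Fin 13, gF c (gvF c x) = x := by decide +kernel

/-- The generators. -/
def gen (c : Fin 3) : Equiv.Perm (Fin 13) where
  toFun := gF c
  invFun := gvF c
  left_inv := gv_g c
  right_inv := g_gv c

/-- The coset representatives. -/
def pm (g : Fin 30) (x : Fin 13) : Fin 13 :=
  ⟨dg pmT 4 (13 * g.val + x.val) % 13, Nat.mod_lt _ (by norm_num)⟩

/-- action of a generator on the copies. -/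
def piF (c : Fin 3) (g : Fin 30) : Fin 30 :=
  ⟨dg piT 7 (30 * c.val + g.val) % 30, Nat.mod_lt _ (by norm_num)⟩

@[inherit_doc piF]
def pvF (c : Fin 3) (g : Fin 30) : Fin 30 :=
  ⟨dg pvT 7 (30 * c.val + g.val) % 30, Nat.mod_lt _ (by norm_num)⟩

/-- the twist. -/
def bF (c : Fin 3) (g : Fin 30) : Fin 4 :=
  ⟨dg bT 4 (30 * c.val + g.val) % 4, Nat.mod_lt _ (by norm_num)⟩

/-- the elements of `H`. -/
def hp (b : Fin 4) (x : Fin 13) : Fin 13 :=
  ⟨dg hpT 4 (13 * b.val + x.val) % 13, Nat.mod_lt _ (by norm_num)⟩

/-- the action of `H` on the new vertices of a copy. -/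
def hz (b : Fin 4) (j : Fin 4) : Fin 4 :=
  ⟨dg hzT 3 (4 * b.val + j.val) % 4, Nat.mod_lt _ (by norm_num)⟩

/-- the parent. -/
def paF (g : Fin 30) : Fin 30 :=
  ⟨dg paT 7 g.val % 30, Nat.mod_lt _ (by norm_num)⟩

set_option maxRecDepth 100000 in
theorem pv_pi : ∀ c : Fin 3, ∀ g : Fin 30, pvF c (piF c g) = g := by decide +kernel

set_option maxRecDepth 100000 in
theorem pi_pv : ∀ c : Fin 3, ∀ g : Fin 30, piF c (pvF c g) = g := by decide +kernel

set_option maxRecDepth 100000 in
theorem pm_pi : ∀ c : Fin 3, ∀ g : Fin 30, ∀ x : Fin 13,
    pm (piF c g) (hp (bF c g) x) = gen c (pm g x) := by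
  decide +kernel

set_option maxRecDepth 100000 in
theorem pm_zero : ∀ x : Fin 13, pm 0 x = x := by decide +kernel

theorem hp_hp : ∀ b : Fin 4, ∀ x : Fin 13, hp b (hp b x) = x := by decide +kernel

theorem hz_hz : ∀ b : Fin 4, ∀ x : Fin 4, hz b (hz b x) = x := by decide +kernel

set_option maxRecDepth 100000 in
theorem pa_spec : ∀ g : Fin 30, paF g = g ∨ ∃ c : Fin 3, piF c (paF g) = g := by
  decide +kernel

set_option maxRecDepth 100000 in
theorem pa_iter : ∀ g : Fin 30, paF^[8] g = 0 := by decide +kernel

/-- action of a generator on the copies. -/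
def pI (c : Fin 3) : Equiv.Perm (Fin 30) where
  toFun := piF c
  invFun := pvF c
  left_inv := pv_pi c
  right_inv := pi_pv c

/-- Generation. -/
theorem gen_ind (P : Fin 30 → Prop) (h0 : P 0) (hs : ∀ c g, P g → P (piF c g)) : ∀ g, P g := by
  have h1 : ∀ g, P (paF g) → P g := by
    intro g hg
    rcases pa_spec g with h | ⟨c, h⟩
    · rwa [h] at hg
    · rw [← h]; exact hs c _ hg
  have h2 : ∀ n g, P (paF^[n] g) → P g := by
    intro n
    induction n with
    | zero => exact fun g h => h
    | succ n ih =>
      intro g h
      rw [Function.iterate_succ_apply] at h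
      exact h1 g (ih _ h)
  intro g
  apply h2 8
  rw [pa_iter]
  exact h0

set_option maxRecDepth 100000 in
theorem pm_inj' : ∀ g : Fin 30, ∀ x y : Fin 13, pm g x = pm g y → x = y := by decide +kernel

theorem pm_inj (g : Fin 30) : Function.Injective (pm g) := fun x y h => pm_inj' g x y h

/-- the types of the old vertices. -/
def t0 (x : Fin 13) : ℕ := if x.val < 5 then 0 else if x.val < 11 then 1 else 2

theorem t0_gen : ∀ c : Fin 3, ∀ x : Fin 13, t0 (gen c x) = t0 x := by decide +kernel

/-- the types of the new vertices. -/
def tz (j : Fin 4) : ℕ := (![0, 0, 1, 1] : Fin 4 → ℕ) j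

end Pool.Agent.H73.EZ
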