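import Pool.Agent.H73.EZ.Mf

set_option autoImplicit false

/-! # Invariance of the complex on 17 vertices (helper73) -/

namespace Pool.Agent.H73.EZ

open Set Pool.Agent.H73.EV

/-- the action of `H` on the vertices of a copy. -/
def hM (b : Fin 4) (i : Fin 17) : Fin 17 :=
  if h : i.val < 13 then ⟨(hp b ⟨i.val, h⟩).val, by omega⟩
  else ⟨13 + (hz b ⟨i.val - 13, by omega⟩).val, by omega⟩

/-- table of the action of `H`. -/
def hNT : ℕ :=
  1085861809326929622966152510321518196075298006349111472662757881703881968860470212760715077863738542112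

/-- the same on natural numbers. -/
def hN (b i : ℕ) : ℕ := dg hNT 5 (17 * b + i)

theorem hN_hM : ∀ b : Fin 4, ∀ i : Fin 17, hN b.val i.val = (hM b i).val := by decide +kernel

theorem hM_hM : ∀ b : Fin 4, ∀ i : Fin 17, hM b (hM b i) = i := by decide +kernel

/-- pruned checker for the invariance. -/
def ck2 (f : ℕ → ℕ) : ℕ → ℕ → ℕ → Bool
  | 0, s, s' => big.testBit s == big.testBit s'
  | n + 1, s, s' => (!(big.testBit s) && !(big.testBit s')) ||
      (ck2 f n s s' && ck2 f n (2 ^ n + s) (2 ^ f n + s'))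

theorem ck2_sound (h : Fin 17 → Fin 17) (hinj : Function.Injective h) (f : ℕ → ℕ)
    (hf : ∀ i : Fin 17, f i.val = (h i).val) : ∀ (n s s' : ℕ), n ≤ 17 → ck2 f n s s' = true →
    ∀ T : Set (Fin 17), code T = s → code (h '' T) = s' → (∀ i ∈ T, n ≤ i.val) →
    ∀ Y : Set (Fin 17), (∀ i ∈ Y, i.val < n) → (MM (h '' (T ∪ Y)) ↔ MM (T ∪ Y)) := by
  intro n
  induction n with
  | zero =>
    intro s s' _ hc T hs hs' hT Y hY
    have : Y = ∅ := Set.eq_empty_iff_forall_notMem.2
      fun i hi => absurd (hY i hi) (Nat.not_lt_zero _)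
    subst this
    rw [Set.union_empty]
    unfold MM
    rw [hs, hs']
    simp only [ck2, beq_iff_eq] at hc
    rw [hc]
  | succ n ih =>
    intro s s' hn hc T hs hs' hT Y hY
    simp only [ck2, Bool.or_eq_true, Bool.and_eq_true, Bool.not_eq_true'] at hc
    rcases hc with ⟨h1, h2⟩ | ⟨h1, h2⟩
    · have n1 : ¬ MM T := by
        unfold MM
        rw [hs, h1]
        exact Bool.false_ne_true
      have n2 : ¬ MM (h '' T) := by
        unfold MM
        rw [hs', h2]
        exact Bool.false_ne_true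
      constructor
      · intro hm
        exact absurd (MM_down _ _ (Set.image_mono Set.subset_union_left) hm) n2
      · intro hm
        exact absurd (MM_down _ _ Set.subset_union_left hm) n1
    · by_cases hnY : (⟨n, by omega⟩ : Fin 17) ∈ Y
      · have hnT : (⟨n, by omega⟩ : Fin 17) ∉ T := fun h => by
          have := hT _ h
          simp at this
        have e : T ∪ Y = insert ⟨n, by omega⟩ T ∪ (Y \ {⟨n, by omega⟩}) := by
          ext i
          simp only [mem_union, mem_insert_iff, mem_sdiff, mem_singleton_iff]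
          constructor
          · rintro (h | h)
            · exact Or.inl (Or.inr h)
            · by_cases hi : i = ⟨n, by omega⟩
              · exact Or.inl (Or.inl hi)
              · exact Or.inr ⟨h, hi⟩
          · rintro ((h | h) | h)
            · rw [h]; exact Or.inr hnY
            · exact Or.inl h
            · exact Or.inr h.1
        rw [e]
        refine ih _ _ (by omega) h2 _ ?_ ?_ ?_ _ ?_
        · rw [code_insert _ _ hnT, hs]
        · rw [Set.image_insert_eq, code_insert, hs', ← hf]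
          rintro ⟨j, hj, hje⟩
          exact hnT (hinj hje ▸ hj)
        · rintro i (hi | hi)
          · rw [hi]
          · have := hT i hi
            omega
        · intro i hi
          have h3 := hY i hi.1
          have h4 : i.val ≠ n := fun h => hi.2 (Fin.ext h)
          omega
      · refine ih _ _ (by omega) h1 T hs hs' (fun i hi => by
          have := hT i hi
          omega) Y (fun i hi => ?_)
        have h3 := hY i hi
        have h4 : i.val ≠ n := fun h => hnY ((Fin.ext h : i = ⟨n, by omega⟩) ▸ hi)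
        omega

set_option maxRecDepth 100000 in
theorem ck_1 : ck2 (hN 1) 17 0 0 = true := by decide +kernel

set_option maxRecDepth 100000 in
theorem ck_2 : ck2 (hN 2) 17 0 0 = true := by decide +kernel


theorem MM_aux (b : Fin 4) (h1 : ck2 (hN b.val) 17 0 0 = true) (Y : Set (Fin 17)) :
    MM (hM b '' Y) ↔ MM Y := by
  have hinj : Function.Injective (hM b) := fun x y h => by
    rw [← hM_hM b x, h, hM_hM]
  have h2 := ck2_sound (hM b) hinj (hN b.val) (hN_hM b) 17 0 0 le_rfl h1 ∅ code_empty
    (by rw [Set.image_empty]; exact code_empty) (fun i hi => absurd hi (Set.notMem_empty i))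
    Y (fun i _ => i.2)
  rwa [Set.empty_union] at h2

theorem MM_hM (b : Fin 4) (Y : Set (Fin 17)) : MM (hM b '' Y) ↔ MM Y := by
  have e0 : hM 0 = id := by
    funext i
    have key : ∀ i : Fin 17, hM 0 i = i := by decide +kernel
    exact key i
  have h1 : ∀ Y : Set (Fin 17), MM (hM 1 '' Y) ↔ MM Y := MM_aux 1 ck_1
  have h2 : ∀ Y : Set (Fin 17), MM (hM 2 '' Y) ↔ MM Y := MM_aux 2 ck_2
  have e3 : hM 3 = hM 1 ∘ hM 2 := by
    funext i
    have key : ∀ i : Fin 17, hM 3 i = hM 1 (hM 2 i) := by decide +kernel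
    exact key i
  have h3 : ∀ Y : Set (Fin 17), MM (hM 3 '' Y) ↔ MM Y := by
    intro Y
    rw [e3, Set.image_comp, h1, h2]
  fin_cases b
  · show MM (hM 0 '' Y) ↔ MM Y
    rw [e0, Set.image_id]
  · exact h1 Y
  · exact h2 Y
  · exact h3 Y

theorem old_hp (b : Fin 4) (Y : Set (Fin 13)) : hM b '' (old Y) = old (hp b '' Y) := by
  ext i
  constructor
  · rintro ⟨j, ⟨hj, hjY⟩, rfl⟩
    have e : hM b j = ⟨(hp b ⟨j.val, hj⟩).val, by omega⟩ := dif_pos hj
    rw [e]
    exact ⟨(hp b ⟨j.val, hj⟩).2, ⟨j.val, hj⟩, hjY, rfl⟩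
  · rintro ⟨h, y, hy, hyi⟩
    have hy13 := y.2
    refine ⟨⟨y.val, by omega⟩, ⟨hy13, hy⟩, ?_⟩
    have e : hM b ⟨y.val, by omega⟩ = ⟨(hp b ⟨y.val, hy13⟩).val, by omega⟩ := dif_pos hy13
    rw [e]
    apply Fin.ext
    show (hp b y).val = i.val
    rw [hyi]

theorem MM_hp (b : Fin 4) (Y : Set (Fin 13)) : MM (old (hp b '' Y)) ↔ MM (old Y) := by
  rw [← old_hp, MM_hM]

theorem MM_pm (g : Fin 30) : ∀ Y : Set (Fin 13), MM (old (pm g ⁻¹' Y)) ↔ MM (old Y) := by
  refine gen_ind (fun g => ∀ Y : Set (Fin 13), MM (old (pm g ⁻¹' Y)) ↔ MM (old Y)) ?_ ?_ g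
  · intro Y
    have : pm 0 = id := funext pm_zero
    rw [this, Set.preimage_id]
  · intro c g ih Y
    have h1 : pm (piF c g) ∘ hp (bF c g) = gen c ∘ pm g := funext (pm_pi c g)
    have h2 : hp (bF c g) '' (pm g ⁻¹' (gen c ⁻¹' Y)) = pm (piF c g) ⁻¹' Y := by
      rw [← Set.preimage_comp, ← h1, Set.preimage_comp]
      exact Set.image_preimage_eq _ (fun x => ⟨hp (bF c g) x, hp_hp _ x⟩)
    rw [← h2, MM_hp, ih, ← MM_gen c (gen c ⁻¹' Y), Set.image_preimage_eq _ (gen c).surjective]

theorem code_bool (p : ℕ → Bool) : code {i : Fin 13 | p i.val = true} =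
    ∑ i ∈ (Finset.range 13).filter (fun i => p i = true), 2 ^ i := by
  unfold code
  congr 1
  ext i
  rw [mem_toN, Finset.mem_filter, Finset.mem_range]
  constructor
  · rintro ⟨h, h2⟩; exact ⟨h, h2⟩
  · rintro ⟨h, h2⟩; exact ⟨h, h2⟩

theorem MM_fib (x : Fin 13) : ¬ MM (old {y | t0 y = t0 x}) := by
  have key : ∀ k : Fin 3, big.testBit (∑ i ∈ (Finset.range 13).filter
      (fun i => (Nat.beq (t17 i) k.val) = true), 2 ^ i) = false := by decide +kernel
  have ht : ∀ y : Fin 13, t0 y = t17 y.val := fun y => rfl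
  have hlt : t0 x < 3 := by unfold t0; split_ifs <;> norm_num
  have e : {y : Fin 13 | t0 y = t0 x} = {i : Fin 13 | (Nat.beq (t17 i.val) (t0 x)) = true} := by
    ext y
    simp only [mem_ofPred_eq, Nat.beq_eq, ht]
  unfold MM
  have h2 : code (old {y : Fin 13 | t0 y = t0 x}) = code {y : Fin 13 | t0 y = t0 x} := by
    unfold code; rw [toN_old]
  rw [h2, e, code_bool (fun i => Nat.beq (t17 i) (t0 x)), key ⟨t0 x, hlt⟩]
  exact Bool.false_ne_true

end Pool.Agent.H73.EZ
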