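import Pool.Agent.H73.EZ.Glu
import Pool.Agent.H73.EX.Sym

set_option autoImplicit false

/-! # Tied words (helper73)

The coordinates are the elements of a finite abelian group `C`.  A word consists of a shift `s`,
three old vertices (one of each type), an element `g` of the tied orbit and one bit for each type of
new vertices.  The letter at the coordinate `c` is: if `s + c` is the position of an old type, the
old vertex of this type; if it is the position of a new type, the new vertex given by `g` or (if the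
bit is `1`) its image under the swap; otherwise a dummy.  The positions of the old types lie in the
kernel of a homomorphism `par`, those of the new types in another fibre of `par`. -/

namespace Pool.Agent.H73.EZ

open Set Pool.Agent.H73.EX
open Pool.Agent.Y825.EV (Shallow)

/-! ### Symmetries of the glued complex -/

/-- The action of a generator on the new vertices. -/
def s2 (c : Fin 3) : Equiv.Perm (Fin 30 × Fin 4) where
  toFun := act2 c
  invFun := fun p => (pvF c p.1, hz (bF c (pvF c p.1)) p.2)
  left_inv := by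
    rintro ⟨g, j⟩
    simp only [act2, pv_pi, hz_hz]
  right_inv := by
    rintro ⟨g, j⟩
    simp only [act2, pi_pv, hz_hz]

/-- The action of a generator. -/
def sg (c : Fin 3) : Equiv.Perm VV := Equiv.sumCongr (gen c) (s2 c)

theorem hM_old (b : Fin 4) (i : Fin 17) (h : i.val < 13) :
    hM b i = ⟨(hp b ⟨i.val, h⟩).val, by omega⟩ := dif_pos h

theorem hM_new (b : Fin 4) (i : Fin 17) (h : ¬ i.val < 13) :
    hM b i = ⟨13 + (hz b ⟨i.val - 13, by omega⟩).val, by omega⟩ := dif_neg h

theorem sg_emb (c : Fin 3) (g : Fin 30) (i : Fin 17) :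
    sg c (emb g i) = emb (piF c g) (hM (bF c g) i) := by
  by_cases h : i.val < 13
  · have h2 : (hM (bF c g) i).val < 13 := by
      rw [hM_old _ i h]
      exact (hp (bF c g) ⟨i.val, h⟩).2
    have e : (⟨(hM (bF c g) i).val, h2⟩ : Fin 13) = hp (bF c g) ⟨i.val, h⟩ := by
      apply Fin.ext
      show (hM (bF c g) i).val = _
      rw [hM_old _ i h]
    rw [emb_old _ i h, emb_old _ _ h2, e, pm_pi]
    rfl
  · have h2 : ¬ (hM (bF c g) i).val < 13 := by
      rw [hM_new _ i h]
      simp
    have e : (⟨(hM (bF c g) i).val - 13, by omega⟩ : Fin 4) =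
        hz (bF c g) ⟨i.val - 13, by omega⟩ := by
      apply Fin.ext
      show (hM (bF c g) i).val - 13 = _
      rw [hM_new _ i h]
      simp
    rw [emb_new _ i h, emb_new _ _ h2, e]
    rfl

theorem SS_sg (c : Fin 3) (A : Set VV) : SS (sg c '' A) ↔ SS A := by
  have key : ∀ g : Fin 30, ((∀ i j, Sum.inr (i, j) ∈ sg c '' A → i = piF c g) ∧
      MM (emb (piF c g) ⁻¹' (sg c '' A))) ↔
      ((∀ i j, Sum.inr (i, j) ∈ A → i = g) ∧ MM (emb g ⁻¹' A)) := by
    intro g
    have e : emb (piF c g) ⁻¹' (sg c '' A) = hM (bF c g) '' (emb g ⁻¹' A) := by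
      ext i
      constructor
      · rintro ⟨y, hy, hyi⟩
        have h1 : sg c y = sg c (emb g (hM (bF c g) i)) := by rw [sg_emb, hM_hM, hyi]
        have h3 := (sg c).injective h1
        refine ⟨hM (bF c g) i, ?_, hM_hM _ _⟩
        show emb g (hM (bF c g) i) ∈ A
        rw [← h3]
        exact hy
      · rintro ⟨i', hi', rfl⟩
        exact ⟨emb g i', hi', sg_emb c g i'⟩
    rw [e, MM_hM]
    refine and_congr_left fun _ => ?_
    constructor
    · intro h i j hij
      have h1 := h (piF c i) (hz (bF c i) j) ⟨_, hij, rfl⟩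
      exact (pI c).injective h1
    · rintro h i j ⟨y, hy, hyi⟩
      rcases y with x | ⟨i', j'⟩
      · exact absurd hyi (by simp [sg])
      · have h1 := h i' j' hy
        have h2 : (piF c i', hz (bF c i') j') = (i, j) := Sum.inr_injective hyi
        have h3 : piF c i' = i := congrArg Prod.fst h2
        rw [← h3, h1]
  constructor
  · rintro ⟨g, hg⟩
    have h1 := key (pvF c g)
    rw [pi_pv] at h1
    exact ⟨_, h1.1 hg⟩
  · rintro ⟨g, hg⟩
    exact ⟨_, (key g).2 hg⟩

/-! ### The words -/

/-- old part of a word. -/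
abbrev DO : Type := (t : Fin 3) → {x : Fin 13 // t0 x = t.val}

/-- new part of a word: an element of the tied orbit and bits. -/
abbrev DN : Type := Fin 30 × (Fin 2 → Bool)

/-- table of the letters of the tied orbit (copy). -/
def vgT : ℕ :=
  21673024965695156250025245931506796639252779416505898601138745065972550676819653495702929245326249540538252214624793110004096

/-- table of the letters of the tied orbit (index). -/
def vjT : ℕ :=
  608133150958807953780947099421059922771333213837132816

/-- action of the first two generators on the tied orbit. -/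
def poT : ℕ :=
  1017123317404120368096479570728365387211170688502246394329058565533751925282325601285942517300348143447606947553722607791787061069156463551910504389994861954064150295982612345797128023523713

@[inherit_doc poT]
def pqT : ℕ :=
  1017123317404120368096479570728365387211170688502246394329058565723145710732606522239908120096496188744373360295570329321474995529307478436694623804860873967451898034542213596683448533286915

/-- twist bits. -/
def twT : ℕ :=
  5202755595060659197292610211373088

/-- table of parents in a spanning tree of the tied orbit. -/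
def prT : ℕ :=
  349322385831300568027890124337394055168611633632098363474182144

/-- first new vertex of type `t` given by an element of the tied orbit. -/
def v0 (g : Fin 30) (t : Fin 2) : Fin 30 × Fin 4 :=
  (⟨dg vgT 7 (2 * g.val + t.val) % 30, Nat.mod_lt _ (by norm_num)⟩,
   ⟨dg vjT 3 (2 * g.val + t.val) % 4, Nat.mod_lt _ (by norm_num)⟩)

/-- new vertex of the type `t` given by an element of the tied orbit and a bit. -/
def nv (g : Fin 30) (t : Fin 2) : Bool → VV
  | false => Sum.inr (v0 g t)
  | true => Sum.inr (act2 2 (v0 g t))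

/-- action on the tied orbit. -/
def po (c : Fin 3) (g : Fin 30) : Fin 30 :=
  ⟨dg poT 7 (30 * c.val + g.val) % 30, Nat.mod_lt _ (by norm_num)⟩

@[inherit_doc po]
def pq (c : Fin 3) (g : Fin 30) : Fin 30 :=
  ⟨dg pqT 7 (30 * c.val + g.val) % 30, Nat.mod_lt _ (by norm_num)⟩

/-- twist. -/
def tw (c : Fin 3) (g : Fin 30) (t : Fin 2) : Bool :=
  Nat.beq (dg twT 1 (2 * (30 * c.val + g.val) + t.val)) 1

theorem pq_po : ∀ c : Fin 3, ∀ g : Fin 30, pq c (po c g) = g := by decide +kernel

theorem po_pq : ∀ c : Fin 3, ∀ g : Fin 30, po c (pq c g) = g := by decide +kernel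

/-- parent. -/
def pr (g : Fin 30) : Fin 30 := ⟨dg prT 7 g.val % 30, Nat.mod_lt _ (by norm_num)⟩

/-- positions of the types in the group of coordinates. -/
structure Pos (C P : Type) [AddCommGroup C] [AddCommGroup P] where
  /-- positions of the old types -/
  oi : Fin 3 → C
  /-- positions of the new types -/
  ni : Fin 2 → C
  oinj : Function.Injective oi
  ninj : Function.Injective ni
  dis : ∀ t t', oi t ≠ ni t'
  /-- the tying homomorphism -/
  par : C →+ P
  /-- its value on the positions of the new types -/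
  u : P
  hu : u ≠ 0
  po : ∀ t, par (oi t) = 0
  pn : ∀ t, par (ni t) = u

section

variable {C P : Type} [AddCommGroup C] [AddCommGroup P] (Q : Pos C P)

theorem kinds (i : C) : (∃ t, i = Q.oi t) ∨ (∃ t, i = Q.ni t) ∨
    ((∀ t, i ≠ Q.oi t) ∧ ∀ t, i ≠ Q.ni t) := by
  by_cases h1 : ∃ t, i = Q.oi t
  · exact Or.inl h1
  · by_cases h2 : ∃ t, i = Q.ni t
    · exact Or.inr (Or.inl h2)
    · push Not at h1 h2
      exact Or.inr (Or.inr ⟨h1, h2⟩)

open Classical in
/-- the letter at a position. -/
noncomputable def ps (i : C) (o : DO) (n : DN) : VV ⊕ C :=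
  if h : ∃ t, i = Q.oi t then Sum.inl (Sum.inl (o h.choose).1)
  else if h : ∃ t, i = Q.ni t then Sum.inl (nv n.1 h.choose (n.2 h.choose))
  else Sum.inr i

theorem ch_old (t : Fin 3) (h : ∃ t', Q.oi t = Q.oi t') : h.choose = t :=
  (Q.oinj h.choose_spec).symm

theorem ch_new (t : Fin 2) (h : ∃ t', Q.ni t = Q.ni t') : h.choose = t :=
  (Q.ninj h.choose_spec).symm

theorem ps_old (t : Fin 3) (o : DO) (n : DN) :
    ps Q (Q.oi t) o n = Sum.inl (Sum.inl (o t).1) := by
  have h : ∃ t', Q.oi t = Q.oi t' := ⟨t, rfl⟩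
  unfold ps
  rw [dif_pos h, ch_old Q t h]

theorem not_old (t : Fin 2) : ¬ ∃ t', Q.ni t = Q.oi t' := by
  rintro ⟨t', h⟩
  exact Q.dis t' t h.symm

theorem ps_new (t : Fin 2) (o : DO) (n : DN) :
    ps Q (Q.ni t) o n = Sum.inl (nv n.1 t (n.2 t)) := by
  have h : ∃ t', Q.ni t = Q.ni t' := ⟨t, rfl⟩
  unfold ps
  rw [dif_neg (not_old Q t), dif_pos h, ch_new Q t h]

theorem ps_dum (i : C) (o : DO) (n : DN) (h1 : ∀ t, i ≠ Q.oi t) (h2 : ∀ t, i ≠ Q.ni t) :
    ps Q i o n = Sum.inr i := by
  unfold ps
  rw [dif_neg (fun h => h1 _ h.choose_spec), dif_neg (fun h => h2 _ h.choose_spec)]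

theorem ps_upd_old (i : C) (t : Fin 3) (o : DO) (n : DN)
    (y : {x : Fin 13 // t0 x = t.val}) (hi : i ≠ Q.oi t) :
    ps Q i (Function.update o t y) n = ps Q i o n := by
  rcases kinds Q i with ⟨t', rfl⟩ | ⟨t', rfl⟩ | ⟨h1, h2⟩
  · have ht : t' ≠ t := fun e => hi (by rw [e])
    rw [ps_old, ps_old, Function.update_of_ne ht]
  · rw [ps_new, ps_new]
  · rw [ps_dum Q i _ _ h1 h2, ps_dum Q i _ _ h1 h2]

theorem ps_upd_new (i : C) (t : Fin 2) (o : DO) (n : DN) (b : Bool) (hi : i ≠ Q.ni t) :
    ps Q i o (n.1, Function.update n.2 t b) = ps Q i o n := by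
  rcases kinds Q i with ⟨t', rfl⟩ | ⟨t', rfl⟩ | ⟨h1, h2⟩
  · rw [ps_old, ps_old]
  · have ht : t' ≠ t := fun e => hi (by rw [e])
    rw [ps_new, ps_new]
    dsimp only
    rw [Function.update_of_ne ht]
  · rw [ps_dum Q i _ _ h1 h2, ps_dum Q i _ _ h1 h2]

variable (C) in
/-- Words. -/
abbrev WD : Type := C × DO × DN

/-- The letters of a word. -/
noncomputable def lt (w : WD C) (c : C) : VV ⊕ C := ps Q (w.1 + c) w.2.1 w.2.2

/-- The complex with dummies. -/
def SD (X : Set (VV ⊕ C)) : Prop := SS (Sum.inl ⁻¹' X) ∧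
  ∀ i : C, (∀ t, i ≠ Q.oi t) → (∀ t, i ≠ Q.ni t) → Sum.inr i ∉ X

/-- Letters which may be exchanged. -/
def ED (u v : VV ⊕ C) : Prop := ∃ u' v', u = Sum.inl u' ∧ v = Sum.inl v' ∧ EE u' v'

theorem EE_nv (g : Fin 30) (t : Fin 2) (b : Bool) (v : VV) (h : EE (nv g t b) v) :
    v = nv g t (!b) := by
  cases b
  · rcases v with x | p
    · exact absurd h (fun h => h)
    · have h1 : p = act2 2 (v0 g t) := h
      rw [h1]
      rfl
  · rcases v with x | p
    · exact absurd h (fun h => h)
    · have h1 : p = act2 2 (act2 2 (v0 g t)) := h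
      rw [h1, act_act]
      rfl

theorem hex (w : WD C) (c : C) (v : VV ⊕ C)
    (h : ED (lt Q w c) v) : ∃ z : WD C, lt Q z c = v ∧ ∀ d, d ≠ c → lt Q z d = lt Q w d := by
  obtain ⟨s, o, n⟩ := w
  obtain ⟨u', v', hu, rfl, he⟩ := h
  have hu' : ps Q (s + c) o n = Sum.inl u' := hu
  have hne : ∀ d, d ≠ c → s + d ≠ s + c := fun d hd e => hd (add_left_cancel e)
  rcases kinds Q (s + c) with ⟨t, ht⟩ | ⟨t, ht⟩ | ⟨h1, h2⟩
  · rw [ht, ps_old] at hu'
    have hu2 := Sum.inl_injective hu'
    rw [← hu2] at he
    rcases v' with y | p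
    · have h2 : t0 (o t).1 = t0 y := he
      rw [(o t).2] at h2
      refine ⟨(s, Function.update o t ⟨y, h2.symm⟩, n), ?_, ?_⟩
      · show ps Q (s + c) _ n = _
        rw [ht, ps_old]
        dsimp only
        rw [Function.update_self]
      · intro d hd
        exact ps_upd_old Q _ t o n ⟨y, h2.symm⟩ (ht ▸ hne d hd)
    · exact absurd he (fun h => h)
  · rw [ht, ps_new] at hu'
    have hu2 := Sum.inl_injective hu'
    rw [← hu2] at he
    have h3 := EE_nv _ _ _ _ he
    refine ⟨(s, o, (n.1, Function.update n.2 t (!(n.2 t)))), ?_, ?_⟩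
    · show ps Q (s + c) o _ = _
      rw [ht, ps_new, h3]
      dsimp only
      rw [Function.update_self]
    · intro d hd
      exact ps_upd_new Q _ t o n _ (ht ▸ hne d hd)
  · rw [ps_dum Q _ _ _ h1 h2] at hu'
    exact absurd hu' (by simp)

theorem SD_down (A B : Set (VV ⊕ C)) (hAB : A ⊆ B) (h : SD Q B) : SD Q A :=
  ⟨SS_down _ _ (Set.preimage_mono hAB) h.1, fun i h1 h2 h3 => h.2 i h1 h2 (hAB h3)⟩

theorem w1_lift {T N : Set VV} (h : W1 EE SS T N) :
    W1 (ED (C := C)) (SD Q) (Sum.inl '' T) (Sum.inl '' N) := by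
  induction h with
  | leaf T N w hT hN u hu huv h =>
    refine W1.leaf _ _ (Sum.inl w) ?_ ?_ (Sum.inl u) ⟨u, hu, rfl⟩ ⟨u, w, rfl, rfl, huv⟩ ?_
    · rintro ⟨x, hx, hxw⟩
      exact hT (Sum.inl_injective hxw ▸ hx)
    · rintro ⟨x, hx, hxw⟩
      exact hN (Sum.inl_injective hxw ▸ hx)
    · intro X hTX hXN
      have h1 := h (Sum.inl ⁻¹' X) (fun x hx => hTX ⟨x, hx, rfl⟩) (by
        rw [Set.disjoint_left]
        intro x hx hxN
        exact Set.disjoint_left.1 hXN hx ⟨x, hxN, rfl⟩)
      have e1 : (Sum.inl ⁻¹' (insert (Sum.inl w) X) : Set VV) = insert w (Sum.inl ⁻¹' X) := by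
        ext x
        simp
      have e2 : (Sum.inl ⁻¹' (X \ {Sum.inl w}) : Set VV) = (Sum.inl ⁻¹' X) \ {w} := by
        ext x
        simp
      unfold SD
      rw [e1, e2, h1]
      refine and_congr_right fun _ => forall_congr' fun j => ?_
      simp
  | query T N w hT hN _ _ ih1 ih2 =>
    refine W1.query _ _ (Sum.inl w) ?_ ?_ ?_ ?_
    · rintro ⟨x, hx, hxw⟩
      exact hT (Sum.inl_injective hxw ▸ hx)
    · rintro ⟨x, hx, hxw⟩
      exact hN (Sum.inl_injective hxw ▸ hx)
    · rw [Set.image_insert_eq] at ih1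
      exact ih1
    · rw [Set.image_insert_eq] at ih2
      exact ih2

/-! ### Transitivity -/

theorem SD_congr (σ : Equiv.Perm VV) (hσ : ∀ A : Set VV, SS (σ '' A) ↔ SS A)
    (A : Set (VV ⊕ C)) :
    SD Q ((Equiv.sumCongr σ (Equiv.refl (C))) '' A) ↔ SD Q A := by
  have e1 : Sum.inl ⁻¹' ((Equiv.sumCongr σ (Equiv.refl (C))) '' A) =
      σ '' (Sum.inl ⁻¹' A) := by
    ext z
    constructor
    · rintro ⟨w, hw, hwz⟩
      rcases w with w | w
      · exact ⟨w, hw, Sum.inl_injective hwz⟩
      · exact absurd hwz (by simp)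
    · rintro ⟨w, hw, rfl⟩
      exact ⟨Sum.inl w, hw, rfl⟩
  have e2 : ∀ j : C, (Sum.inr j ∈
      (Equiv.sumCongr σ (Equiv.refl (C))) '' A) ↔ Sum.inr j ∈ A := by
    intro j
    constructor
    · rintro ⟨w, hw, hwz⟩
      rcases w with w | w
      · exact absurd hwz (by simp)
      · have : w = j := Sum.inr_injective hwz
        exact this ▸ hw
    · intro hj
      exact ⟨Sum.inr j, hj, rfl⟩
  unfold SD
  rw [e1, hσ]
  refine and_congr_right fun _ => forall_congr' fun j => ?_
  rw [e2]

/-- A family of permutations of the data gives a symmetry. -/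
theorem rw_of (τ : C → Equiv.Perm (DO × DN)) (g : C → Equiv.Perm VV)
    (hg : ∀ c (A : Set VV), SS (g c '' A) ↔ SS A)
    (h : ∀ s o n c, ps Q (s + c) (τ s (o, n)).1 (τ s (o, n)).2 =
      (Equiv.sumCongr (g c) (Equiv.refl C)) (ps Q (s + c) o n)) (w : WD C) :
    Rw (lt Q) (SD Q) w (w.1, τ w.1 w.2) := by
  refine ⟨Equiv.prodShear (Equiv.refl _) τ, fun X => ?_, rfl⟩
  refine Sy.ff _ _ ⟨Equiv.refl _, fun c => Equiv.sumCongr (g c) (Equiv.refl _), ?_, ?_⟩ X
  · rintro ⟨s, o, n⟩ c
    exact h s o n c
  · intro c A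
    exact SD_congr Q (g c) (hg c) A

theorem rw_rot (s r : C) (d : DO × DN) :
    Rw (lt Q) (SD Q) (s, d) (s - r, d) := by
  refine ⟨Equiv.prodCongr (Equiv.subRight r) (Equiv.refl _), fun X => ?_, rfl⟩
  refine Sy.ff _ _ ⟨Equiv.addRight r, fun _ => Equiv.refl _, ?_, fun c A => by simp⟩ X
  rintro ⟨s, o, n⟩ c
  show ps Q (s - r + (c + r)) o n = ps Q (s + c) o n
  congr 1
  abel

/-- action of a generator on an old letter. -/
def sb (c : Fin 3) (t : Fin 3) : Equiv.Perm {x : Fin 13 // t0 x = t.val} :=
  Equiv.subtypeEquiv (gen c) (fun a => by rw [t0_gen])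

/-- action of a generator on the old part. -/
def aO (c : Fin 3) : Equiv.Perm DO := Equiv.piCongrRight fun t => sb c t

/-- action of a generator on the new part. -/
def aN (c : Fin 3) : Equiv.Perm DN where
  toFun n := (po c n.1, fun t => xor (n.2 t) (tw c n.1 t))
  invFun n := (pq c n.1, fun t => xor (n.2 t) (tw c (pq c n.1) t))
  left_inv n := by
    obtain ⟨g, e⟩ := n
    simp [pq_po]
  right_inv n := by
    obtain ⟨g, e⟩ := n
    simp [po_pq]

theorem nv_chk : ∀ c : Fin 3, c.val < 2 → ∀ g : Fin 30, ∀ t : Fin 2,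
    act2 c (v0 g t) = (if tw c g t then act2 2 (v0 (po c g) t) else v0 (po c g) t) ∧
    act2 c (act2 2 (v0 g t)) =
      (if tw c g t then v0 (po c g) t else act2 2 (v0 (po c g) t)) := by decide +kernel

theorem sg_nv (c : Fin 3) (hc : c.val < 2) (g : Fin 30) (t : Fin 2) (b : Bool) :
    nv (po c g) t (xor b (tw c g t)) = sg c (nv g t b) := by
  have h := nv_chk c hc g t
  cases b
  · show _ = Sum.inr (act2 c (v0 g t))
    rw [h.1]
    cases tw c g t <;> rfl
  · show _ = Sum.inr (act2 c (act2 2 (v0 g t)))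
    rw [h.2]
    cases tw c g t <;> rfl

theorem rw_old (c0 : Fin 3) (hc : c0.val < 2) (s : C) (o : DO)
    (n : DN) : Rw (lt Q) (SD Q) (s, o, n) (s, aO c0 o, n) := by
  classical
  have key := rw_of Q (fun s' => if Q.par s' = Q.par s then
      Equiv.prodCongr (aO c0) (Equiv.refl DN) else if Q.par s' = Q.par s + Q.u then
      Equiv.prodCongr (Equiv.refl DO) (aN c0) else Equiv.refl _)
    (fun c => if Q.par c + Q.par s = 0 then sg c0 else Equiv.refl _) ?_ ?_ (s, o, n)
  · simpa using key
  · intro c A
    split_ifs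
    · exact SS_sg c0 A
    · simp
  · intro s' o n c
    rcases kinds Q (s' + c) with ⟨t, ht⟩ | ⟨t, ht⟩ | ⟨h1, h2⟩
    · have hp : Q.par s' + Q.par c = 0 := by rw [← map_add, ht]; exact Q.po t
      by_cases h3 : Q.par s' = Q.par s
      · have h4 : Q.par c + Q.par s = 0 := by rw [← h3, add_comm]; exact hp
        rw [if_pos h3, if_pos h4, ht, ps_old, ps_old]
        rfl
      · have h4 : ¬ Q.par c + Q.par s = 0 := by
          intro e
          apply h3
          have e2 : Q.par s' + Q.par c = Q.par s + Q.par c := by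
            rw [hp, add_comm (Q.par s), e]
          exact add_right_cancel e2
        rw [if_neg h3, if_neg h4]
        by_cases h5 : Q.par s' = Q.par s + Q.u
        · rw [if_pos h5, ht, ps_old, ps_old]
          rfl
        · rw [if_neg h5, ht, ps_old, ps_old]
          rfl
    · have hp : Q.par s' + Q.par c = Q.u := by rw [← map_add, ht]; exact Q.pn t
      by_cases h3 : Q.par s' = Q.par s
      · have h4 : ¬ Q.par c + Q.par s = 0 := by
          rw [← h3, add_comm, hp]
          exact Q.hu
        rw [if_pos h3, if_neg h4, ht, ps_new, ps_new]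
        rfl
      · rw [if_neg h3]
        by_cases h5 : Q.par s' = Q.par s + Q.u
        · have h4 : Q.par c + Q.par s = 0 := by
            rw [h5] at hp
            have e2 : Q.par s + Q.par c + Q.u = 0 + Q.u := by
              rw [zero_add, add_right_comm]
              exact hp
            rw [add_comm]
            exact add_right_cancel e2
          rw [if_pos h5, if_pos h4, ht, ps_new, ps_new]
          show Sum.inl (nv (po c0 n.1) _ (xor (n.2 _) (tw c0 n.1 _))) = Sum.inl (sg c0 (nv n.1 _ _))
          rw [sg_nv c0 hc]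
        · have h4 : ¬ Q.par c + Q.par s = 0 := by
            intro e
            apply h5
            have e2 : Q.par s' + Q.par c = (Q.par s + Q.u) + Q.par c := by
              rw [hp, add_comm (Q.par s), add_assoc, add_comm (Q.par s), e, add_zero]
            exact add_right_cancel e2
          rw [if_neg h5, if_neg h4, ht, ps_new, ps_new]
          rfl
    · rw [ps_dum Q _ _ _ h1 h2, ps_dum Q _ _ _ h1 h2]
      rfl

theorem rw_new (c0 : Fin 3) (hc : c0.val < 2) (s : C) (o : DO)
    (n : DN) : Rw (lt Q) (SD Q) (s, o, n) (s, o, aN c0 n) := by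
  classical
  have key := rw_of Q (fun s' => if Q.par s' = Q.par s then
      Equiv.prodCongr (Equiv.refl DO) (aN c0) else if Q.par s' + Q.u = Q.par s then
      Equiv.prodCongr (aO c0) (Equiv.refl DN) else Equiv.refl _)
    (fun c => if Q.par c + Q.par s = Q.u then sg c0 else Equiv.refl _) ?_ ?_ (s, o, n)
  · simpa using key
  · intro c A
    split_ifs
    · exact SS_sg c0 A
    · simp
  · intro s' o n c
    rcases kinds Q (s' + c) with ⟨t, ht⟩ | ⟨t, ht⟩ | ⟨h1, h2⟩
    · have hp : Q.par s' + Q.par c = 0 := by rw [← map_add, ht]; exact Q.po t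
      by_cases h3 : Q.par s' = Q.par s
      · have h4 : ¬ Q.par c + Q.par s = Q.u := by
          rw [← h3, add_comm, hp]
          exact fun e => Q.hu e.symm
        rw [if_pos h3, if_neg h4, ht, ps_old, ps_old]
        rfl
      · rw [if_neg h3]
        by_cases h5 : Q.par s' + Q.u = Q.par s
        · have h4 : Q.par c + Q.par s = Q.u := by
            rw [← h5, ← add_assoc, add_comm (Q.par c), hp, zero_add]
          rw [if_pos h5, if_pos h4, ht, ps_old, ps_old]
          rfl
        · have h4 : ¬ Q.par c + Q.par s = Q.u := by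
            intro e
            apply h5
            have e2 : (Q.par s' + Q.u) + Q.par c = Q.par s + Q.par c := by
              rw [add_right_comm, hp, zero_add, add_comm (Q.par s), e]
            exact add_right_cancel e2
          rw [if_neg h5, if_neg h4, ht, ps_old, ps_old]
          rfl
    · have hp : Q.par s' + Q.par c = Q.u := by rw [← map_add, ht]; exact Q.pn t
      by_cases h3 : Q.par s' = Q.par s
      · have h4 : Q.par c + Q.par s = Q.u := by rw [← h3, add_comm]; exact hp
        rw [if_pos h3, if_pos h4, ht, ps_new, ps_new]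
        show Sum.inl (nv (po c0 n.1) _ (xor (n.2 _) (tw c0 n.1 _))) = Sum.inl (sg c0 (nv n.1 _ _))
        rw [sg_nv c0 hc]
      · have h4 : ¬ Q.par c + Q.par s = Q.u := by
          intro e
          apply h3
          have e2 : Q.par s' + Q.par c = Q.par s + Q.par c := by
            rw [hp, add_comm (Q.par s), e]
          exact add_right_cancel e2
        rw [if_neg h3, if_neg h4]
        by_cases h5 : Q.par s' + Q.u = Q.par s
        · rw [if_pos h5, ht, ps_new, ps_new]
          rfl
        · rw [if_neg h5, ht, ps_new, ps_new]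
          rfl
    · rw [ps_dum Q _ _ _ h1 h2, ps_dum Q _ _ _ h1 h2]
      rfl

theorem sg_two_nv (g : Fin 30) (t : Fin 2) (b : Bool) : nv g t (!b) = sg 2 (nv g t b) := by
  cases b
  · rfl
  · show Sum.inr (v0 g t) = Sum.inr (act2 2 (act2 2 (v0 g t)))
    rw [act_act]

/-- flip of a bit. -/
def flp (t : Fin 2) : Equiv.Perm (Fin 2 → Bool) :=
  Function.Involutive.toPerm (fun e => Function.update e t (!(e t))) (fun e => by
    funext i
    by_cases h : i = t
    · subst h; simp
    · simp [h])

/-- action of the swap on one old letter. -/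
def upO (t : Fin 3) : Equiv.Perm DO where
  toFun o := Function.update o t (sb 2 t (o t))
  invFun o := Function.update o t ((sb 2 t).symm (o t))
  left_inv o := by simp
  right_inv o := by simp

open Classical in
/-- action of the swap at one position. -/
noncomputable def Fp (i : C) : Equiv.Perm (DO × DN) :=
  if h : ∃ t, i = Q.oi t then Equiv.prodCongr (upO h.choose) (Equiv.refl DN)
  else if h : ∃ t, i = Q.ni t then
    Equiv.prodCongr (Equiv.refl DO) (Equiv.prodCongr (Equiv.refl _) (flp h.choose))
  else Equiv.refl _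

theorem Fp_old (t : Fin 3) : Fp Q (Q.oi t) = Equiv.prodCongr (upO t) (Equiv.refl DN) := by
  have h : ∃ t', Q.oi t = Q.oi t' := ⟨t, rfl⟩
  unfold Fp
  rw [dif_pos h, ch_old Q t h]

theorem Fp_new (t : Fin 2) : Fp Q (Q.ni t) =
    Equiv.prodCongr (Equiv.refl DO) (Equiv.prodCongr (Equiv.refl _) (flp t)) := by
  have h : ∃ t', Q.ni t = Q.ni t' := ⟨t, rfl⟩
  unfold Fp
  rw [dif_neg (not_old Q t), dif_pos h, ch_new Q t h]

theorem Fp_dum (i : C) (h1 : ∀ t, i ≠ Q.oi t) (h2 : ∀ t, i ≠ Q.ni t) :
    Fp Q i = Equiv.refl _ := by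
  unfold Fp
  rw [dif_neg (fun h => h1 _ h.choose_spec), dif_neg (fun h => h2 _ h.choose_spec)]

theorem rw_swap (i0 s : C) (d : DO × DN) :
    Rw (lt Q) (SD Q) (s, d) (s, Fp Q i0 d) := by
  classical
  have key := rw_of Q (fun s' => Fp Q (s' + (i0 - s)))
    (fun c => if c = i0 - s then sg 2 else Equiv.refl _) ?_ ?_ (s, d)
  · have e : s + (i0 - s) = i0 := by abel
    rw [show ((s, d) : WD C).1 = s from rfl, show ((s, d) : WD C).2 = d from rfl, e] at key
    exact key
  · intro c A
    split_ifs
    · exact SS_sg 2 A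
    · simp
  · intro s' o n c
    by_cases hc : c = i0 - s
    · subst hc
      rw [if_pos rfl]
      generalize s' + (i0 - s) = i
      rcases kinds Q i with ⟨t, rfl⟩ | ⟨t, rfl⟩ | ⟨h1, h2⟩
      · rw [Fp_old, ps_old, ps_old]
        show Sum.inl (Sum.inl (Function.update o _ _ _).1) = _
        rw [Function.update_self]
        rfl
      · rw [Fp_new, ps_new, ps_new]
        show Sum.inl (nv n.1 _ (Function.update n.2 _ _ _)) = Sum.inl (sg 2 (nv n.1 _ _))
        rw [Function.update_self, sg_two_nv]
      · rw [Fp_dum Q i h1 h2, ps_dum Q _ _ _ h1 h2, ps_dum Q _ _ _ h1 h2]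
        rfl
    · rw [if_neg hc]
      have hne : s' + c ≠ s' + (i0 - s) := fun e => hc (add_left_cancel e)
      generalize s' + (i0 - s) = i at hne
      have e : ∀ x : VV ⊕ C,
          (Equiv.sumCongr (Equiv.refl VV) (Equiv.refl C)) x = x := by
        rintro (x | x) <;> rfl
      rw [e]
      rcases kinds Q i with ⟨t, rfl⟩ | ⟨t, rfl⟩ | ⟨h1, h2⟩
      · rw [Fp_old]
        exact ps_upd_old Q _ t o n _ hne
      · rw [Fp_new]
        exact ps_upd_new Q _ t o n _ hne
      · rw [Fp_dum Q i h1 h2]
        rfl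

theorem pa_spec2 : ∀ g : Fin 30, paF g = g ∨ ∃ c : Fin 3, c.val < 2 ∧ piF c (paF g) = g := by
  decide +kernel

theorem pr_spec : ∀ g : Fin 30, pr g = g ∨ ∃ c : Fin 3, c.val < 2 ∧ po c (pr g) = g := by
  decide +kernel

theorem pr_iter : ∀ g : Fin 30, pr^[8] g = 0 := by decide +kernel

/-- Generation. -/
theorem gen_aux {A : Type} (par : A → A) (step : Fin 3 → A → A) (a0 : A) (md : ℕ)
    (hsp : ∀ g, par g = g ∨ ∃ c : Fin 3, c.val < 2 ∧ step c (par g) = g)
    (hit : ∀ g, par^[md] g = a0) (P : A → Prop) (h0 : P a0)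
    (hs : ∀ c : Fin 3, c.val < 2 → ∀ g, P g → P (step c g)) : ∀ g, P g := by
  have h1 : ∀ g, P (par g) → P g := by
    intro g hg
    rcases hsp g with h | ⟨c, hc, h⟩
    · rwa [h] at hg
    · rw [← h]; exact hs c hc _ hg
  have h2 : ∀ n g, P (par^[n] g) → P g := by
    intro n
    induction n with
    | zero => exact fun g h => h
    | succ n ih =>
      intro g h
      rw [Function.iterate_succ_apply] at h
      exact h1 g (ih _ h)
  intro g
  apply h2 md
  rw [hit]
  exact h0

theorem rw_copy (s : C) (o : DO) :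
    ∀ g : Fin 30, ∀ e : Fin 2 → Bool, ∃ e' : Fin 2 → Bool,
      Rw (lt Q) (SD Q) (s, o, (0, e')) (s, o, (g, e)) := by
  refine gen_aux pr po 0 8 pr_spec pr_iter _ (fun e => ⟨e, Rw.refl _ _ _⟩) ?_
  intro c hc g ih e
  obtain ⟨e', h⟩ := ih (fun t => xor (e t) (tw c g t))
  refine ⟨e', h.trans ?_⟩
  have h2 := rw_new Q c hc s o (g, fun t => xor (e t) (tw c g t))
  have e2 : aN c (g, fun t => xor (e t) (tw c g t)) = (po c g, e) := by
    show (po c g, fun t => xor (xor (e t) (tw c g t)) (tw c g t)) = (po c g, e)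
    simp
  rwa [e2] at h2

theorem rw_flip (s : C) (o : DO) (g : Fin 30) (e : Fin 2 → Bool)
    (t : Fin 2) : Rw (lt Q) (SD Q) (s, o, (g, e)) (s, o, (g, Function.update e t (!(e t)))) := by
  have key := rw_swap Q (Q.ni t) s (o, (g, e))
  rw [Fp_new] at key
  exact key

theorem rw_flipO (s : C) (o : DO) (n : DN) (t : Fin 3) :
    Rw (lt Q) (SD Q) (s, o, n) (s, Function.update o t (sb 2 t (o t)), n) := by
  have key := rw_swap Q (Q.oi t) s (o, n)
  rw [Fp_old] at key
  exact key

theorem rw_bits (s : C) (o : DO) (g : Fin 30) (e : Fin 2 → Bool) :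
    Rw (lt Q) (SD Q) (s, o, (g, e)) (s, o, (g, fun _ => false)) := by
  have key : ∀ n : ℕ, Rw (lt Q) (SD Q) (s, o, (g, e))
      (s, o, (g, fun t => if t.val < n then false else e t)) := by
    intro n
    induction n with
    | zero => simpa using Rw.refl _ _ _
    | succ n ih =>
      refine ih.trans ?_
      by_cases hn : n < 2
      · by_cases he : e ⟨n, hn⟩ = true
        · have h := rw_flip Q s o g (fun t => if t.val < n then false else e t) ⟨n, hn⟩
          have h2 : Function.update (fun t : Fin 2 => if t.val < n then false else e t) ⟨n, hn⟩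
              (!((fun t : Fin 2 => if t.val < n then false else e t) ⟨n, hn⟩)) =
              fun t => if t.val < n + 1 then false else e t := by
            funext t
            by_cases ht : t = ⟨n, hn⟩
            · subst ht
              simp [he]
            · have hv : t.val ≠ n := fun h => ht (Fin.ext h)
              rw [Function.update_of_ne ht]
              by_cases h3 : t.val < n
              · rw [if_pos h3, if_pos (by omega)]
              · rw [if_neg h3, if_neg (by omega)]
          rwa [h2] at h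
        · have h2 : (fun t : Fin 2 => if t.val < n then false else e t) =
              fun t => if t.val < n + 1 then false else e t := by
            funext t
            by_cases h3 : t.val < n
            · rw [if_pos h3, if_pos (by omega)]
            · by_cases h4 : t.val = n
              · have : t = ⟨n, hn⟩ := Fin.ext h4
                subst this
                rw [if_neg h3, if_pos (by simp)]
                exact Bool.eq_false_iff.2 he
              · rw [if_neg h3, if_neg (by omega)]
          rw [h2]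
          exact Rw.refl _ _ _
      · have h2 : (fun t : Fin 2 => if t.val < n then false else e t) =
            fun t => if t.val < n + 1 then false else e t := by
          funext t
          have := t.2
          rw [if_pos (by omega), if_pos (by omega)]
        rw [h2]
        exact Rw.refl _ _ _
  have h := key 2
  have h2 : (fun t : Fin 2 => if t.val < 2 then false else e t) = fun _ => false := by
    funext t
    rw [if_pos t.2]
  rwa [h2] at h

/-- action on pairs of old vertices. -/
def pp (c : Fin 3) (p : Fin 13 × Fin 13) : Fin 13 × Fin 13 := (gen c p.1, gen c p.2)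

/-- words in the generators. -/
def wl (n : ℕ) : List Bool := match n with
  | 5 => []
  | 6 => [false, false]
  | 7 => [true, false, false, true, true]
  | 8 => [false]
  | 9 => [true, false, true, true, true, false]
  | 10 => [true, false, true, true, true]
  | 18 => [true, true, true]
  | 19 => [true, false, false]
  | 20 => [false, false, true, false, false]
  | 21 => [true, true, false]
  | 22 => [true, false, true]
  | 23 => [false, true, false, false]
  | 31 => [true, true, true, true]
  | 32 => [true, false, true, true]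
  | 33 => [false, true, false, false, true]
  | 34 => [true, true, true, true, false]
  | 35 => [true, true, false, true]
  | 36 => [true, false, false, true]
  | 44 => [true, true]
  | 45 => [false, true, true]
  | 46 => [false, true, false]
  | 47 => [true, false]
  | 48 => [false, false, true, false]
  | 49 => [true, false, true, false, false]
  | 57 => [true]
  | 58 => [true, true, false, false]
  | 59 => [true, false, true, false]
  | 60 => [true, true, true, false]
  | 61 => [false, true]
  | 62 => [false, false, true]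
  | _ => []

theorem wl_chk : ∀ x y : Fin 13, t0 x = 0 → t0 y = 1 →
    (wl (13 * x.val + y.val)).foldl (fun p b => pp (if b then 1 else 0) p)
      ((0 : Fin 13), (5 : Fin 13)) = (x, y) := by
  decide +kernel

theorem ob_aux : ∀ t : Fin 3, t0 ((![0, 5, 11] : Fin 3 → Fin 13) t) = t.val := by decide +kernel

/-- base of the old part. -/
def ob : DO := fun t => ⟨(![0, 5, 11] : Fin 3 → Fin 13) t, ob_aux t⟩

theorem rw_step (s : C) (n : DN) (o : DO) (h2 : (o 2).1 = 11) :
    ∀ (l : List Bool), ∃ o' : DO, (o' 2).1 = 11 ∧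
      ((o' 0).1, (o' 1).1) = l.foldl (fun p b => pp (if b then 1 else 0) p) ((o 0).1, (o 1).1) ∧
      Rw (lt Q) (SD Q) (s, o, n) (s, o', n) := by
  intro l
  induction l generalizing o with
  | nil => exact ⟨o, h2, rfl, Rw.refl _ _ _⟩
  | cons b l ih =>
    have hc : (if b then 1 else 0 : Fin 3).val < 2 := by cases b <;> decide
    have h3 : (aO (if b then 1 else 0) o 2).1 = 11 := by
      show gen _ (o 2).1 = 11
      rw [h2]
      cases b <;> decide +kernel
    obtain ⟨o', h4, h5, h6⟩ := ih (aO (if b then 1 else 0) o) h3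
    refine ⟨o', h4, ?_, (rw_old Q _ hc s o n).trans h6⟩
    rw [h5]
    rfl

theorem g11 : ∀ z : Fin 13, t0 z = 2 → z ≠ 11 → gen 2 11 = z := by decide +kernel

theorem rw_ob (s : C) (o : DO) (n : DN) :
    Rw (lt Q) (SD Q) (s, ob, n) (s, o, n) := by
  obtain ⟨o', ho, hp', h2⟩ := rw_step Q s n ob rfl (wl (13 * (o 0).1.val + (o 1).1.val))
  have hw : ((o' 0).1, (o' 1).1) = ((o 0).1, (o 1).1) :=
    hp'.trans (wl_chk (o 0).1 (o 1).1 (o 0).2 (o 1).2)
  have h0 : (o' 0).1 = (o 0).1 := congrArg Prod.fst hw
  have h1 : (o' 1).1 = (o 1).1 := congrArg Prod.snd hw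
  by_cases hz : (o 2).1 = 11
  · have e : o' = o := by
      funext t
      apply Subtype.ext
      fin_cases t
      · exact h0
      · exact h1
      · exact ho.trans hz.symm
    rwa [e] at h2
  · refine h2.trans ?_
    have h3 := rw_flipO Q s o' n 2
    have e : Function.update o' 2 (sb 2 2 (o' 2)) = o := by
      funext t
      fin_cases t
      · exact Subtype.ext h0
      · exact Subtype.ext h1
      · apply Subtype.ext
        show gen 2 (o' 2).1 = (o 2).1
        rw [ho]
        exact g11 _ (o 2).2 hz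
    rwa [e] at h3

theorem rw_all (w w' : WD C) : Rw (lt Q) (SD Q) w w' := by
  have key : ∀ w : WD C, Rw (lt Q) (SD Q) w (0, ob, (0, fun _ => false)) := by
    rintro ⟨s, o, g, e⟩
    obtain ⟨e', h0⟩ := rw_copy Q s o g e
    have h1 := h0.symm.trans (rw_bits Q s o 0 e')
    have h2 := h1.trans (rw_ob Q s o (0, fun _ => false)).symm
    have h3 := rw_rot Q s s ((ob, (0, fun _ => false)) : DO × DN)
    rw [sub_self] at h3
    exact h2.trans h3
  exact (key w).trans (key w').symm

theorem cov_chk : ∀ g : Fin 30, ∀ j : Fin 4, ∃ g' : Fin 30, ∃ t : Fin 2,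
    v0 g' t = (g, j) ∨ act2 2 (v0 g' t) = (g, j) := by decide +kernel

theorem cov_new (g : Fin 30) (j : Fin 4) : ∃ g' t b, nv g' t b = Sum.inr (g, j) := by
  obtain ⟨g', t, h | h⟩ := cov_chk g j
  · exact ⟨g', t, false, by rw [← h]; rfl⟩
  · exact ⟨g', t, true, by rw [← h]; rfl⟩

theorem cov : SD Q {v | ∀ w : WD C, lt Q w 0 ≠ v} := by
  constructor
  · have e : (Sum.inl ⁻¹' {v | ∀ w : WD C, lt Q w 0 ≠ v} : Set VV) = ∅ := by
      rw [Set.eq_empty_iff_forall_notMem]
      intro v hv
      rcases v with x | ⟨g, j⟩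
      · refine hv (Q.oi ⟨t0 x, t0_lt x⟩,
          Function.update ob ⟨t0 x, t0_lt x⟩ ⟨x, rfl⟩, (0, fun _ => false)) ?_
        show ps Q (Q.oi ⟨t0 x, t0_lt x⟩ + 0) _ _ = _
        rw [add_zero, ps_old]
        dsimp only
        rw [Function.update_self]
      · obtain ⟨g', t, b, h⟩ := cov_new g j
        refine hv (Q.ni t, ob, (g', fun _ => b)) ?_
        show ps Q (Q.ni t + 0) _ _ = _
        rw [add_zero, ps_new]
        show Sum.inl (nv g' t b) = _
        rw [h]
    rw [e]
    exact SS_empty
  · intro i h1 h2 h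
    refine h (i, ob, (0, fun _ => false)) ?_
    show ps Q (i + 0) _ _ = _
    rw [add_zero, ps_dum Q _ _ _ h1 h2]

theorem av_chk : ∀ t : Fin 2, v0 0 t ≠ (piF 2 0, 3) ∧ v0 0 t ≠ (1, 3) := by
  decide +kernel

theorem avoid (c : C) :
    lt Q (((0 : C), ob, (0, fun _ => false)) : WD C) c ≠ Sum.inl aa ∧
    lt Q (((0 : C), ob, (0, fun _ => false)) : WD C) c ≠ Sum.inl ab := by
  have key : ∀ p : Fin 30 × Fin 4, (∀ t : Fin 2, v0 0 t ≠ p) →
      lt Q (((0 : C), ob, (0, fun _ => false)) : WD C) c ≠ Sum.inl (Sum.inr p) := by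
    intro p hg h
    have h' : ps Q (0 + c) ob (0, fun _ => false) = Sum.inl (Sum.inr p) := h
    rcases kinds Q (0 + c) with ⟨t, ht⟩ | ⟨t, ht⟩ | ⟨h1, h2⟩
    · rw [ht, ps_old] at h'
      exact absurd (Sum.inl_injective h') (by simp)
    · rw [ht, ps_new] at h'
      have h3 : (Sum.inr (v0 0 t) : VV) = Sum.inr p := Sum.inl_injective h'
      exact hg _ (Sum.inr_injective h3)
    · rw [ps_dum Q _ _ _ h1 h2] at h'
      exact absurd h' (by simp)
  exact ⟨key _ fun t => (av_chk t).1, key _ fun t => (av_chk t).2⟩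

theorem card_DO : Nat.card DO = 60 := by
  rw [Nat.card_eq_fintype_card]
  decide +kernel

omit [AddCommGroup C] in
theorem card_WD : Nat.card (WD C) = Nat.card C * 7200 := by
  have h1 : Nat.card DN = 120 := by
    rw [Nat.card_eq_fintype_card]
    simp [DN]
  rw [Nat.card_prod, Nat.card_prod, card_DO, h1]

include Q in
/-- For every group of coordinates with suitable positions of the types the number `7200 |C|`
works. -/
theorem main_C [Finite C] : 2 ≤ Nat.card C * 7200 ∧ ∀ r j : ℕ, 1 ≤ r →
    Shallow (r * (Nat.card C * 7200) ^ j) (r * (Nat.card C * 7200 - 1) ^ j) := by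
  have hw1 := w1_lift Q w1_a
  have hw2 := w1_lift Q w1_ab
  rw [Set.image_empty, Set.image_singleton] at hw1
  rw [Set.image_singleton, Set.image_singleton] at hw2
  refine assemble (lt Q) (SD Q) ED (hex Q) (SD_down Q) 0 (cov Q) (rw_all Q) (Sum.inl aa)
    (Sum.inl ab) (0, ob, (0, fun _ => false)) (avoid Q) ?_ hw1 hw2 _ card_WD
  rintro ⟨h, _⟩
  refine not_ab (SS_down _ _ ?_ h)
  rintro x (hx | hx)
  · rw [hx]; exact Or.inl rfl
  · rw [hx]; exact Or.inr rfl

end

/-! ### The coordinates `ZMod (p q)` -/

theorem val_aux {k a : ℕ} (h : a < k) : ((a : ℕ) : ZMod k).val = a :=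
  ZMod.val_natCast_of_lt h

theorem inj_aux {k a b : ℕ} (ha : a < k) (hb : b < k) (h : ((a : ℕ) : ZMod k) = (b : ℕ)) :
    a = b := by
  rw [← val_aux ha, ← val_aux hb, h]

/-- positions: multiples of `p` for the old types, the next ones for the new types. -/
def posZ (p q : ℕ) (hp : 2 ≤ p) (hq : 3 ≤ q) : Pos (ZMod (p * q)) (ZMod p) where
  oi t := ((p * t.val : ℕ) : ZMod (p * q))
  ni t := ((p * t.val + 1 : ℕ) : ZMod (p * q))
  oinj := by
    intro t t' h
    have ht := t.2
    have ht' := t'.2
    have h2 := inj_aux (by nlinarith) (by nlinarith) h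
    have h3 := Nat.eq_of_mul_eq_mul_left (by omega) h2
    exact Fin.ext h3
  ninj := by
    intro t t' h
    have ht := t.2
    have ht' := t'.2
    have h2 := inj_aux (by nlinarith) (by nlinarith) h
    have h3 := Nat.eq_of_mul_eq_mul_left (by omega) (Nat.succ_injective h2)
    exact Fin.ext h3
  dis := by
    intro t t' h
    have ht := t.2
    have ht' := t'.2
    have h2 := inj_aux (by nlinarith) (by nlinarith) h
    have h3 := congrArg (fun x => x % p) h2
    simp only [Nat.mul_mod_right, Nat.mul_add_mod] at h3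
    rw [Nat.mod_eq_of_lt (by omega)] at h3
    exact absurd h3 (by norm_num)
  par := (ZMod.castHom (dvd_mul_right p q) (ZMod p)).toAddMonoidHom
  u := 1
  hu := by
    have : Fact (1 < p) := ⟨by omega⟩
    exact one_ne_zero
  po := by
    intro t
    show ZMod.castHom (dvd_mul_right p q) (ZMod p) ((p * t.val : ℕ) : ZMod (p * q)) = 0
    rw [map_natCast, Nat.cast_mul, ZMod.natCast_self, zero_mul]
  pn := by
    intro t
    show ZMod.castHom (dvd_mul_right p q) (ZMod p) ((p * t.val + 1 : ℕ) : ZMod (p * q)) = 1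
    rw [map_natCast, Nat.cast_add, Nat.cast_mul, ZMod.natCast_self, zero_mul, zero_add,
      Nat.cast_one]

/-- For every `k = p q`, `p ≥ 2`, `q ≥ 3`, the number `7200 k` works. -/
theorem main_pq (p q : ℕ) (hp : 2 ≤ p) (hq : 3 ≤ q) : 2 ≤ (p * q) * 7200 ∧ ∀ r j : ℕ, 1 ≤ r →
    Shallow (r * ((p * q) * 7200) ^ j) (r * ((p * q) * 7200 - 1) ^ j) := by
  have : NeZero (p * q) := ⟨by nlinarith⟩
  have h := main_C (posZ p q hp hq)
  rwa [Nat.card_zmod] at h

/-- The same for composite `k ≥ 6`. -/
theorem main (k : ℕ) (hk : 6 ≤ k) (hnp : ¬ Nat.Prime k) : 2 ≤ k * 7200 ∧ ∀ r j : ℕ, 1 ≤ r →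
    Shallow (r * (k * 7200) ^ j) (r * (k * 7200 - 1) ^ j) := by
  obtain ⟨a, ha, ha2, ha3⟩ := Nat.exists_dvd_of_not_prime2 (by omega) hnp
  obtain ⟨b, rfl⟩ := ha
  have hb : 2 ≤ b := by
    by_contra hb
    interval_cases b <;> omega
  by_cases h3 : 3 ≤ b
  · exact main_pq a b ha2 h3
  · have hb2 : b = 2 := by omega
    subst hb2
    have h := main_pq 2 a le_rfl (by omega)
    rwa [mul_comm 2 a] at h

end Pool.Agent.H73.EZ
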